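import Pool.Agent.Lib.MP_6886f9_pr.Spec

/-!
Module Ctr: a symmetric stochastic matrix whose two-step chain satisfies a Poincare inequality
contracts the functions of sum zero, and the rows of its powers are close to uniform.
-/

set_option autoImplicit false

namespace Pool.Agent.Lib.MP_6886f9_pr

open Finset

private theorem Ctr_rowpow {Ω : Type} [Fintype Ω] [DecidableEq Ω] (P : Matrix Ω Ω ℝ)
    (hs : ∀ x, ∑ y, P x y = 1) (t : ℕ) : ∀ x, ∑ y, (P ^ t) x y = 1 := by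
  induction t with
  | zero => intro x; simp [Matrix.one_apply]
  | succ t ih =>
    intro x
    simp only [pow_succ, Matrix.mul_apply]
    rw [Finset.sum_comm]
    calc ∑ z, ∑ y, (P ^ t) x z * P z y = ∑ z, (P ^ t) x z := by
          refine Finset.sum_congr rfl fun z _ => ?_
          rw [← Finset.mul_sum, hs z, mul_one]
      _ = 1 := ih x

private theorem Ctr_sq {Ω : Type} [Fintype Ω] [DecidableEq Ω] (P : Matrix Ω Ω ℝ) (z w : Ω) :
    (P ^ 2) z w = ∑ u, P z u * P u w := by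
  rw [pow_two, Matrix.mul_apply]

private theorem Ctr_energy {Ω : Type} [Fintype Ω] [DecidableEq Ω] (P : Matrix Ω Ω ℝ)
    (hsym : ∀ x y, P x y = P y x) (hs : ∀ x, ∑ y, P x y = 1) (f : Ω → ℝ) :
    ∑ z, ∑ w, (P ^ 2) z w * (f z - f w) ^ 2 =
      2 * ∑ z, f z ^ 2 - 2 * ∑ z, (∑ w, P z w * f w) ^ 2 := by
  have hrow : ∀ z, ∑ w, (P ^ 2) z w = 1 := Ctr_rowpow P hs 2
  have hsym2 : ∀ z w, (P ^ 2) z w = (P ^ 2) w z := by
    intro z w
    rw [Ctr_sq, Ctr_sq]
    refine Finset.sum_congr rfl fun u _ => ?_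
    rw [hsym z u, hsym u w, mul_comm]
  have h1 : ∑ z, ∑ w, (P ^ 2) z w * f z ^ 2 = ∑ z, f z ^ 2 := by
    refine Finset.sum_congr rfl fun z _ => ?_
    rw [← Finset.sum_mul, hrow z, one_mul]
  have h2 : ∑ z, ∑ w, (P ^ 2) z w * f w ^ 2 = ∑ z, f z ^ 2 := by
    rw [Finset.sum_comm]
    refine Finset.sum_congr rfl fun w _ => ?_
    rw [← Finset.sum_mul]
    have : ∑ z, (P ^ 2) z w = 1 := by
      rw [← hrow w]
      exact Finset.sum_congr rfl fun z _ => hsym2 z w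
    rw [this, one_mul]
  have h3 : ∑ z, ∑ w, (P ^ 2) z w * (f z * f w) = ∑ u, (∑ w, P u w * f w) ^ 2 := by
    have e1 : ∀ z w, (P ^ 2) z w * (f z * f w) = ∑ u, (P u z * f z) * (P u w * f w) := by
      intro z w
      rw [Ctr_sq, Finset.sum_mul]
      refine Finset.sum_congr rfl fun u _ => ?_
      rw [hsym z u]
      ring
    have e2 : ∀ u, (∑ w, P u w * f w) ^ 2 = ∑ z, ∑ w, (P u z * f z) * (P u w * f w) := by
      intro u
      rw [pow_two, Finset.sum_mul_sum]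
    calc ∑ z, ∑ w, (P ^ 2) z w * (f z * f w)
        = ∑ z, ∑ w, ∑ u, (P u z * f z) * (P u w * f w) :=
          Finset.sum_congr rfl fun z _ => Finset.sum_congr rfl fun w _ => e1 z w
      _ = ∑ z, ∑ u, ∑ w, (P u z * f z) * (P u w * f w) :=
          Finset.sum_congr rfl fun z _ => Finset.sum_comm
      _ = ∑ u, ∑ z, ∑ w, (P u z * f z) * (P u w * f w) := Finset.sum_comm
      _ = ∑ u, (∑ w, P u w * f w) ^ 2 := Finset.sum_congr rfl fun u _ => (e2 u).symm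
  have h4 : ∑ z, ∑ w, (P ^ 2) z w * (f z - f w) ^ 2 =
      ∑ z, ∑ w, (P ^ 2) z w * f z ^ 2 + ∑ z, ∑ w, (P ^ 2) z w * f w ^ 2 -
        2 * ∑ z, ∑ w, (P ^ 2) z w * (f z * f w) := by
    rw [Finset.mul_sum, ← Finset.sum_add_distrib, ← Finset.sum_sub_distrib]
    refine Finset.sum_congr rfl fun z _ => ?_
    rw [Finset.mul_sum, ← Finset.sum_add_distrib, ← Finset.sum_sub_distrib]
    refine Finset.sum_congr rfl fun w _ => ?_
    ring
  rw [h4, h1, h2, h3]
  ring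

private theorem Ctr_var {Ω : Type} [Fintype Ω] (f : Ω → ℝ) (h0 : ∑ x, f x = 0) :
    ∑ x, ∑ y, (f x - f y) ^ 2 = 2 * (Fintype.card Ω : ℝ) * ∑ x, f x ^ 2 := by
  have e : ∀ x, ∑ y, (f x - f y) ^ 2 =
      (Fintype.card Ω : ℝ) * f x ^ 2 - 2 * f x * ∑ y, f y + ∑ y, f y ^ 2 := by
    intro x
    have : ∀ y, (f x - f y) ^ 2 = f x ^ 2 - 2 * f x * f y + f y ^ 2 := fun y => by ring
    simp only [this, Finset.sum_add_distrib, Finset.sum_sub_distrib, Finset.sum_const,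
      Finset.card_univ, nsmul_eq_mul, ← Finset.mul_sum]
  simp only [e, h0, mul_zero, sub_zero, Finset.sum_add_distrib, ← Finset.mul_sum,
    Finset.sum_const, Finset.card_univ, nsmul_eq_mul]
  ring

private theorem Ctr_contr {Ω : Type} [Fintype Ω] [DecidableEq Ω] [Nonempty Ω]
    (P : Matrix Ω Ω ℝ) (C : ℝ) (hC : 1 ≤ C) (hsym : ∀ x y, P x y = P y x)
    (hs : ∀ x, ∑ y, P x y = 1)
    (hP : ∀ f : Ω → ℝ, ∑ x, ∑ y, (f x - f y) ^ 2 ≤
      C * (Fintype.card Ω : ℝ) * ∑ z, ∑ w, (P ^ 2) z w * (f z - f w) ^ 2)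
    (f : Ω → ℝ) (h0 : ∑ x, f x = 0) :
    ∑ z, (∑ w, P z w * f w) ^ 2 ≤ (1 - 1 / C) * ∑ z, f z ^ 2 := by
  have h := hP f
  rw [Ctr_var f h0, Ctr_energy P hsym hs f] at h
  have hN : (0 : ℝ) < (Fintype.card Ω : ℝ) := by
    exact_mod_cast Fintype.card_pos
  have hC0 : (0 : ℝ) < C := by linarith
  generalize (∑ z, f z ^ 2) = S at *
  generalize (∑ z, (∑ w, P z w * f w) ^ 2) = Q at *
  have h1 : (Fintype.card Ω : ℝ) * (2 * S) ≤ (Fintype.card Ω : ℝ) * (C * (2 * S - 2 * Q)) := by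
    nlinarith
  have h2 : 2 * S ≤ C * (2 * S - 2 * Q) := le_of_mul_le_mul_left h1 hN
  have h3 : Q * C ≤ ((1 - 1 / C) * S) * C := by
    have : ((1 - 1 / C) * S) * C = C * S - S := by
      field_simp
    rw [this]
    nlinarith
  exact le_of_mul_le_mul_right h3 hC0

private theorem Ctr_decay {Ω : Type} [Fintype Ω] [DecidableEq Ω] [Nonempty Ω]
    (P : Matrix Ω Ω ℝ) (C : ℝ) (hC : 1 ≤ C) (hsym : ∀ x y, P x y = P y x)
    (hs : ∀ x, ∑ y, P x y = 1)
    (hP : ∀ f : Ω → ℝ, ∑ x, ∑ y, (f x - f y) ^ 2 ≤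
      C * (Fintype.card Ω : ℝ) * ∑ z, ∑ w, (P ^ 2) z w * (f z - f w) ^ 2) (x : Ω) (t : ℕ) :
    ∑ y, ((P ^ t) x y - 1 / (Fintype.card Ω : ℝ)) ^ 2 ≤ (1 - 1 / C) ^ t := by
  have hN : (0 : ℝ) < (Fintype.card Ω : ℝ) := by
    exact_mod_cast Fintype.card_pos
  have hC0 : (0 : ℝ) < C := by linarith
  have hc : 0 ≤ 1 - 1 / C := by
    have : 1 / C ≤ 1 := by
      rw [div_le_one hC0]
      exact hC
    linarith
  have hsum : ∀ t : ℕ, ∑ y, ((P ^ t) x y - 1 / (Fintype.card Ω : ℝ)) = 0 := by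
    intro t
    rw [Finset.sum_sub_distrib, Ctr_rowpow P hs t x, Finset.sum_const, Finset.card_univ,
      nsmul_eq_mul, mul_one_div_cancel hN.ne', sub_self]
  induction t with
  | zero =>
    have e : ∀ y, ((P ^ 0) x y - 1 / (Fintype.card Ω : ℝ)) ^ 2 =
        (if x = y then 1 - 2 / (Fintype.card Ω : ℝ) else 0) + 1 / (Fintype.card Ω : ℝ) ^ 2 := by
      intro y
      rw [pow_zero, Matrix.one_apply]
      split_ifs <;> ring
    rw [Finset.sum_congr rfl fun y _ => e y, Finset.sum_add_distrib, Finset.sum_ite_eq,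
      if_pos (Finset.mem_univ x), Finset.sum_const, Finset.card_univ, nsmul_eq_mul, pow_zero]
    have h2 : (Fintype.card Ω : ℝ) * (1 / (Fintype.card Ω : ℝ) ^ 2) =
        1 / (Fintype.card Ω : ℝ) := by
      field_simp
    have h3 : 2 / (Fintype.card Ω : ℝ) = 2 * (1 / (Fintype.card Ω : ℝ)) := by ring
    have h4 : 0 ≤ 1 / (Fintype.card Ω : ℝ) := by positivity
    rw [h2, h3]
    linarith
  | succ t ih =>
    have h := Ctr_contr P C hC hsym hs hP
      (fun y => (P ^ t) x y - 1 / (Fintype.card Ω : ℝ)) (hsum t)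
    have e : ∀ z, ∑ w, P z w * ((P ^ t) x w - 1 / (Fintype.card Ω : ℝ)) =
        (P ^ (t + 1)) x z - 1 / (Fintype.card Ω : ℝ) := by
      intro z
      simp only [mul_sub, Finset.sum_sub_distrib, ← Finset.sum_mul, hs z, one_mul]
      rw [pow_succ, Matrix.mul_apply]
      refine congrArg (fun s => s - 1 / (Fintype.card Ω : ℝ)) ?_
      refine Finset.sum_congr rfl fun w _ => ?_
      rw [hsym z w, mul_comm]
    simp only [e] at h
    calc ∑ y, ((P ^ (t + 1)) x y - 1 / (Fintype.card Ω : ℝ)) ^ 2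
        ≤ (1 - 1 / C) * ∑ y, ((P ^ t) x y - 1 / (Fintype.card Ω : ℝ)) ^ 2 := h
      _ ≤ (1 - 1 / C) * (1 - 1 / C) ^ t := mul_le_mul_of_nonneg_left ih hc
      _ = (1 - 1 / C) ^ (t + 1) := by ring

theorem tCtr : S_Ctr := by
  intro Ω _ _ _ P C hC hsym _ hs hP ε hε t ht x
  have hN : (0 : ℝ) < (Fintype.card Ω : ℝ) := by
    exact_mod_cast Fintype.card_pos
  have hC0 : (0 : ℝ) < C := by linarith
  have h1 := Ctr_decay P C hC hsym hs hP x t
  have hc : 0 ≤ 1 - 1 / C := by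
    have : 1 / C ≤ 1 := by
      rw [div_le_one hC0]
      exact hC
    linarith
  have h2 : (1 - 1 / C) ^ t ≤ Real.exp (-(t : ℝ) / C) := by
    have h3 : 1 - 1 / C ≤ Real.exp (-(1 / C)) := Real.one_sub_le_exp_neg _
    calc (1 - 1 / C) ^ t ≤ Real.exp (-(1 / C)) ^ t := pow_le_pow_left₀ hc h3 t
      _ = Real.exp (-(t : ℝ) / C) := by
          rw [← Real.exp_nat_mul]
          congr 1
          ring
  have h4 : (Fintype.card Ω : ℝ) * Real.exp (-(t : ℝ) / C) ≤ ε ^ 2 := by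
    have h5 : Real.log (Fintype.card Ω) + 2 * Real.log (1 / ε) ≤ (t : ℝ) / C := by
      rw [le_div_iff₀ hC0, mul_comm]
      exact ht
    have h6 : Real.log (1 / ε) = - Real.log ε := by
      rw [one_div, Real.log_inv]
    have h7 : -(t : ℝ) / C ≤ 2 * Real.log ε - Real.log (Fintype.card Ω) := by
      rw [h6] at h5
      have : -(t : ℝ) / C = -((t : ℝ) / C) := by ring
      rw [this]
      linarith
    calc (Fintype.card Ω : ℝ) * Real.exp (-(t : ℝ) / C)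
        ≤ (Fintype.card Ω : ℝ) * Real.exp (2 * Real.log ε - Real.log (Fintype.card Ω)) :=
          mul_le_mul_of_nonneg_left (Real.exp_le_exp.2 h7) hN.le
      _ = ε ^ 2 := by
          rw [Real.exp_sub, Real.exp_log hN, two_mul, Real.exp_add, Real.exp_log hε]
          field_simp
  have h8 : (∑ y, |(P ^ t) x y - 1 / (Fintype.card Ω : ℝ)|) ^ 2 ≤ ε ^ 2 := by
    calc (∑ y, |(P ^ t) x y - 1 / (Fintype.card Ω : ℝ)|) ^ 2
        ≤ (Finset.univ.card : ℝ) * ∑ y, |(P ^ t) x y - 1 / (Fintype.card Ω : ℝ)| ^ 2 :=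
          sq_sum_le_card_mul_sum_sq
      _ = (Fintype.card Ω : ℝ) * ∑ y, ((P ^ t) x y - 1 / (Fintype.card Ω : ℝ)) ^ 2 := by
          rw [Finset.card_univ]
          simp only [sq_abs]
      _ ≤ (Fintype.card Ω : ℝ) * Real.exp (-(t : ℝ) / C) :=
          mul_le_mul_of_nonneg_left (h1.trans h2) hN.le
      _ ≤ ε ^ 2 := h4
  have h9 : (∑ y, |(P ^ t) x y - 1 / (Fintype.card Ω : ℝ)|) ≤ ε :=
    (le_abs_self _).trans (abs_le_of_sq_le_sq h8 hε.le)
  have h10 : 0 ≤ ∑ y, |(P ^ t) x y - 1 / (Fintype.card Ω : ℝ)| :=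
    Finset.sum_nonneg fun y _ => abs_nonneg _
  linarith

end Pool.Agent.Lib.MP_6886f9_pr
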