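import Pool.Agent.Lib.MP_6886f9_pr.Spec

/-!
MP_6886f9_pr, project KH: the chain is symmetric and stochastic (proof of `S_Def`).
-/

set_option autoImplicit false

namespace Pool.Agent.Lib.MP_6886f9_pr

open Finset

/-- A move determines the new height. -/
private theorem Def_uniq {V : Type} {G : SimpleGraph V} {k : ℕ} (φ ψ χ : Height G k) (v : V)
    (up : Bool) (h1 : IsMove φ v up ψ) (h2 : IsMove φ v up χ) : ψ = χ := by
  apply Subtype.ext
  funext w
  apply Fin.ext
  change ψ.val w = χ.val w
  obtain ⟨a1, b1⟩ := h1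
  obtain ⟨a2, b2⟩ := h2
  by_cases hw : w = v
  · subst hw
    cases up
    · simp only [Bool.false_eq_true, if_false] at b1 b2
      omega
    · simp only [if_true] at b1 b2
      omega
  · rw [a1 w hw, a2 w hw]

/-- A move can be reversed. -/
private theorem Def_rev {V : Type} {G : SimpleGraph V} {k : ℕ} (φ ψ : Height G k) (v : V)
    (up : Bool) (h : IsMove φ v up ψ) : IsMove ψ v (!up) φ := by
  obtain ⟨a, b⟩ := h
  refine ⟨fun w hw => (a w hw).symm, ?_⟩
  cases up
  · simpa using b
  · simpa using b

/-- The next state. -/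
private theorem Def_ex {V : Type} {G : SimpleGraph V} {k : ℕ} (φ : Height G k) (v : V)
    (up : Bool) : ∃ ψ : Height G k, Result φ v up ψ ∧ ∀ χ, Result φ v up χ → χ = ψ := by
  by_cases h : ∃ χ, IsMove φ v up χ
  · obtain ⟨ψ, hψ⟩ := h
    refine ⟨ψ, Or.inl hψ, ?_⟩
    rintro χ (hχ | ⟨_, hχ⟩)
    · exact Def_uniq φ χ ψ v up hχ hψ
    · exact absurd ⟨ψ, hψ⟩ hχ
  · refine ⟨φ, Or.inr ⟨rfl, h⟩, ?_⟩
    rintro χ (hχ | ⟨hχ, _⟩)
    · exact absurd ⟨χ, hχ⟩ h
    · exact hχ

/-- A positive entry is at least `1 / (2 n)`. -/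
private theorem Def_ge {V : Type} [Fintype V] [Nonempty V] {G : SimpleGraph V} {k : ℕ}
    (φ ψ : Height G k) (v : V) (up : Bool) (h : Result φ v up ψ) :
    1 / (2 * (Fintype.card V : ℝ)) ≤ trans G k φ ψ := by
  classical
  have hn : (0 : ℝ) < Fintype.card V := by exact_mod_cast Fintype.card_pos
  unfold trans
  apply div_le_div_of_nonneg_right _ (by positivity)
  have h1 : 0 < (univ.filter fun p : V × Bool => Result φ p.1 p.2 ψ).card :=
    Finset.card_pos.2 ⟨(v, up), by simpa using h⟩
  have h2 : 1 ≤ (univ.filter fun p : V × Bool => Result φ p.1 p.2 ψ).card := h1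
  exact_mod_cast h2

theorem tDef : S_Def := by
  classical
  intro V _ _ G k
  have hn : (0 : ℝ) < Fintype.card V := by exact_mod_cast Fintype.card_pos
  refine ⟨?_, ?_, ?_, ?_, ?_⟩
  · intro φ ψ
    by_cases hne : φ = ψ
    · rw [hne]
    · unfold trans
      congr 2
      refine Finset.card_bij' (fun p _ => (p.1, !p.2)) (fun p _ => (p.1, !p.2)) ?_ ?_ ?_ ?_
      · intro p hp
        simp only [mem_filter, mem_univ, true_and] at hp ⊢
        rcases hp with hp | ⟨hp, _⟩
        · exact Or.inl (Def_rev φ ψ p.1 p.2 hp)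
        · exact absurd hp.symm hne
      · intro p hp
        simp only [mem_filter, mem_univ, true_and] at hp ⊢
        rcases hp with hp | ⟨hp, _⟩
        · exact Or.inl (Def_rev ψ φ p.1 p.2 hp)
        · exact absurd hp hne
      · intro p _
        simp
      · intro p _
        simp
  · intro φ ψ
    unfold trans
    positivity
  · intro φ
    have h1 : ∀ ψ : Height G k, trans G k φ ψ =
        (∑ p : V × Bool, if Result φ p.1 p.2 ψ then (1 : ℝ) else 0) /
          (2 * (Fintype.card V : ℝ)) := by
      intro ψ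
      unfold trans
      rw [Finset.sum_boole]
    have h2 : ∀ p : V × Bool,
        ∑ ψ : Height G k, (if Result φ p.1 p.2 ψ then (1 : ℝ) else 0) = 1 := by
      intro p
      obtain ⟨ψ, hψ, hu⟩ := Def_ex φ p.1 p.2
      rw [Finset.sum_eq_single ψ]
      · rw [if_pos hψ]
      · intro χ _ hχ
        rw [if_neg]
        intro h
        exact hχ (hu χ h)
      · intro h
        exact absurd (Finset.mem_univ ψ) h
    calc ∑ ψ, trans G k φ ψ
        = (∑ ψ : Height G k, ∑ p : V × Bool, if Result φ p.1 p.2 ψ then (1 : ℝ) else 0) /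
          (2 * (Fintype.card V : ℝ)) := by
          rw [Finset.sum_div]
          exact Finset.sum_congr rfl fun ψ _ => h1 ψ
      _ = (∑ p : V × Bool, (1 : ℝ)) / (2 * (Fintype.card V : ℝ)) := by
          rw [Finset.sum_comm]
          congr 1
          exact Finset.sum_congr rfl fun p _ => h2 p
      _ = 1 := by
          rw [Finset.sum_const, Finset.card_univ, Fintype.card_prod, Fintype.card_bool,
            nsmul_eq_mul, mul_one]
          push_cast
          rw [mul_comm]
          exact div_self (by positivity)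
  · intro φ ψ v up h
    exact Def_ge φ ψ v up (Or.inl h)
  · intro φ v hv
    refine Def_ge φ φ v false (Or.inr ⟨rfl, ?_⟩)
    rintro ⟨χ, _, hχ⟩
    simp only [Bool.false_eq_true, if_false] at hχ
    omega

end Pool.Agent.Lib.MP_6886f9_pr
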