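import Pool.Agent.Lib.MP_6886f9_pr.Spec

/-!
MP_6886f9_pr, project KH, module Lay: a path decomposition into `r` nonempty bags of at most `p`
vertices of a graph of degrees at most `D` gives a layout with `r + 1` stages, whose separators have
`k`-neighbourhoods of at most `p * (D + 1) ^ k` vertices.
-/

set_option autoImplicit false

namespace Pool.Agent.Lib.MP_6886f9_pr

open Finset

/-- The ball of radius `i` about `S` has at most `card S * (D + 1) ^ i` vertices. -/
private lemma Lay_nb_card {V : Type} [Fintype V] (G : SimpleGraph V) (D : ℕ) (hD : DegLE G D)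
    (S : Finset V) (i : ℕ) : (nb G S i).card ≤ S.card * (D + 1) ^ i := by
  classical
  choose N hN hc using hD
  induction i with
  | zero => simp [nb]
  | succ i ih =>
    have h1 : nb G S (i + 1) ⊆ nb G S i ∪ (nb G S i).biUnion N := by
      intro v hv
      simp only [nb, Finset.mem_union, Finset.mem_filter, Finset.mem_univ, true_and] at hv
      rw [Finset.mem_union, Finset.mem_biUnion]
      rcases hv with hv | ⟨u, hu, huv⟩
      · exact Or.inl hv
      · exact Or.inr ⟨u, hu, hN u v huv⟩
    have h2 : ((nb G S i).biUnion N).card ≤ (nb G S i).card * D :=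
      Finset.card_biUnion_le_card_mul _ _ _ (fun u _ => hc u)
    calc (nb G S (i + 1)).card ≤ (nb G S i ∪ (nb G S i).biUnion N).card :=
          Finset.card_le_card h1
      _ ≤ (nb G S i).card + ((nb G S i).biUnion N).card := Finset.card_union_le _ _
      _ ≤ (nb G S i).card + (nb G S i).card * D := Nat.add_le_add_left h2 _
      _ = (nb G S i).card * (D + 1) := by ring
      _ ≤ S.card * (D + 1) ^ i * (D + 1) := Nat.mul_le_mul_right _ ih
      _ = S.card * (D + 1) ^ (i + 1) := by ring

/-- Lay: a path decomposition gives a layout. -/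
theorem tLay : S_Lay := by
  classical
  intro V _ hV G k D p r X hD hX
  have hr : 0 < r := by
    obtain ⟨v⟩ := hV
    obtain ⟨i, _⟩ := hX.cover v
    exact Nat.lt_of_le_of_lt (Nat.zero_le _) i.2
  refine ⟨fun s => Finset.univ.filter
      (fun v => r + 1 ≤ s ∨ ∃ i : Fin r, (i : ℕ) + 1 ≤ s ∧ v ∈ X i),
    fun s => Finset.univ.filter (fun v => ∃ i : Fin r, (i : ℕ) + 1 = s ∧ v ∈ X i), ?_⟩
  refine ⟨?_, ?_, ?_, ?_, ?_, ?_, ?_, ?_, ?_⟩
  · ext v
    simp
  · ext v
    simp
  · ext v
    simp
  · apply Finset.eq_empty_of_forall_notMem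
    intro v hv
    rw [Finset.mem_filter] at hv
    obtain ⟨-, i, hi, -⟩ := hv
    have := i.2
    omega
  · intro s u v huv hu hv
    simp only [Finset.mem_filter, Finset.mem_univ, true_and] at hu hv ⊢
    push Not at hv
    obtain ⟨hs, hv⟩ := hv
    rcases hu with hu | ⟨i, hi, hui⟩
    · omega
    · obtain ⟨j, huj, hvj⟩ := hX.edge u v huv
      have hj : s < (j : ℕ) + 1 := by
        by_contra hcon
        exact hv j (by omega) hvj
      have hs1 : s - 1 < r := by
        have := j.2
        omega
      refine ⟨⟨s - 1, hs1⟩, by simp only; omega, ?_⟩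
      exact hX.interval i ⟨s - 1, hs1⟩ j (by rw [Fin.le_def]; simp only; omega)
        (by rw [Fin.le_def]; simp only; omega) u hui huj
  · intro s v hv
    simp only [Finset.mem_filter, Finset.mem_univ, true_and] at hv ⊢
    rcases hv with hv | ⟨i, hi, hvi⟩
    · exact Or.inl (by omega)
    · exact Or.inr ⟨i, by omega, hvi⟩
  · intro s v hv hv'
    simp only [Finset.mem_filter, Finset.mem_univ, true_and] at hv hv' ⊢
    push Not at hv'
    obtain ⟨hs, hv'⟩ := hv'
    rcases hv with hv | ⟨i, hi, hvi⟩
    · obtain ⟨i, hvi⟩ := hX.cover v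
      exact absurd hvi (hv' i (by have := i.2; omega))
    · refine Or.inr ⟨i, ?_, hvi⟩
      by_contra hcon
      exact hv' i (by omega) hvi
  · intro s hs
    rcases Nat.eq_zero_or_pos s with h0 | h0
    · right
      obtain ⟨v, hv⟩ := hX.nonempty ⟨0, hr⟩
      refine ⟨v, ?_⟩
      simp only [Finset.mem_filter, Finset.mem_univ, true_and]
      exact ⟨⟨0, hr⟩, by simp only; omega, hv⟩
    · left
      have hs1 : s - 1 < r := by omega
      obtain ⟨v, hv⟩ := hX.nonempty ⟨s - 1, hs1⟩
      refine ⟨v, ?_⟩
      simp only [Finset.mem_filter, Finset.mem_univ, true_and]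
      exact ⟨⟨s - 1, hs1⟩, by simp only; omega, hv⟩
  · intro s
    refine (Lay_nb_card G D hD _ k).trans (Nat.mul_le_mul_right _ ?_)
    rcases Finset.eq_empty_or_nonempty
      (Finset.univ.filter (fun v => ∃ i : Fin r, (i : ℕ) + 1 = s ∧ v ∈ X i)) with h | h
    · rw [h]
      simp
    · obtain ⟨w, hw⟩ := h
      rw [Finset.mem_filter] at hw
      obtain ⟨-, i, hi, -⟩ := hw
      refine (Finset.card_le_card ?_).trans (hX.card_le i)
      intro v hv
      rw [Finset.mem_filter] at hv
      obtain ⟨-, j, hj, hvj⟩ := hv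
      have hij : j = i := by
        apply Fin.ext
        omega
      rw [← hij]
      exact hvj

end Pool.Agent.Lib.MP_6886f9_pr
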