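import Pool.Agent.Lib.MP_6886f9_pr.Spec

/-!
Module Loc of project KH: the local lemma (a difference of values of `f` is bounded by the local energies
on the states between the two heights).
-/

set_option autoImplicit false

namespace Pool.Agent.Lib.MP_6886f9_pr

open Finset

variable {V : Type} [Fintype V]

private theorem Loc_mono {G : SimpleGraph V} {k : ℕ} {Z Z' : Set (Height G k)} (hZ : Z ⊆ Z') {l : ℕ}
    {u v : Height G k} (h : Conn Z l u v) : Conn Z' l u v := by
  induction h with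
  | nil u hu => exact Conn.nil u (hZ hu)
  | cons l u w v hu h hw ih => exact Conn.cons l u w v (hZ hu) h ih

private theorem Loc_append {G : SimpleGraph V} {k : ℕ} {Z : Set (Height G k)} {l l' : ℕ}
    {u w v : Height G k} (h : Conn Z l u w) (h' : Conn Z l' w v) : Conn Z (l + l') u v := by
  induction h with
  | nil u hu =>
    rw [Nat.zero_add]
    exact h'
  | cons l u w v hu h hw ih =>
    rw [Nat.add_right_comm]
    exact Conn.cons _ u w _ hu h (ih h')

private theorem Loc_rev {G : SimpleGraph V} {k : ℕ} {Z : Set (Height G k)}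
    (hs : ∀ φ ψ, trans G k φ ψ = trans G k ψ φ) {l : ℕ}
    {u v : Height G k} (h : Conn Z l u v) : Conn Z l v u := by
  induction h with
  | nil u hu => exact Conn.nil u hu
  | cons l u w v hu h hw ih =>
    have hwZ : w ∈ Z := by
      cases hw with
      | nil _ hu' => exact hu'
      | cons _ _ _ _ hu' _ _ => exact hu'
    exact Loc_append ih (Conn.cons 0 w u u hwZ (by rw [hs]; exact h) (Conn.nil u hu))

private theorem Loc_inv0 {G : SimpleGraph V} {k : ℕ} {Z : Set (Height G k)} {l : ℕ}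
    {u v : Height G k} (h : Conn Z l u v) (hl : l = 0) : u = v := by
  cases h with
  | nil _ _ => rfl
  | cons _ _ _ _ _ _ _ => omega

private theorem Loc_invS {G : SimpleGraph V} {k : ℕ} {Z : Set (Height G k)} {l m : ℕ}
    {u v : Height G k} (h : Conn Z l u v) (hl : l = m + 1) :
    ∃ w, u ∈ Z ∧ 1 / (2 * (Fintype.card V : ℝ)) ≤ trans G k u w ∧ Conn Z m w v := by
  cases h with
  | nil _ _ => omega
  | cons l' _ w _ hu h hw =>
    obtain rfl : l' = m := by omega
    exact ⟨w, hu, h, hw⟩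

private theorem Loc_energy_nonneg {G : SimpleGraph V} {k : ℕ}
    (h0 : ∀ φ ψ, 0 ≤ trans G k φ ψ) (f : Height G k → ℝ) (z : Height G k) : 0 ≤ energy f z := by
  unfold energy
  refine Finset.sum_nonneg fun w _ => mul_nonneg ?_ (sq_nonneg _)
  rw [pow_two, Matrix.mul_apply]
  exact Finset.sum_nonneg fun y _ => mul_nonneg (h0 _ _) (h0 _ _)

private theorem Loc_two {G : SimpleGraph V} {k : ℕ} [Nonempty V]
    (h0 : ∀ φ ψ, 0 ≤ trans G k φ ψ) (f : Height G k → ℝ) (z w z' : Height G k)
    (h1 : 1 / (2 * (Fintype.card V : ℝ)) ≤ trans G k z w)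
    (h2 : 1 / (2 * (Fintype.card V : ℝ)) ≤ trans G k w z') :
    (f z - f z') ^ 2 ≤ (2 * (Fintype.card V : ℝ)) ^ 2 * energy f z := by
  have hn : (0 : ℝ) < 2 * (Fintype.card V : ℝ) := by
    have : 0 < Fintype.card V := Fintype.card_pos
    positivity
  have hd : (0 : ℝ) ≤ 1 / (2 * (Fintype.card V : ℝ)) := by positivity
  have hP : ∀ x y, 0 ≤ (trans G k ^ 2) x y := by
    intro x y
    rw [pow_two, Matrix.mul_apply]
    exact Finset.sum_nonneg fun y _ => mul_nonneg (h0 _ _) (h0 _ _)
  have e1 : (1 / (2 * (Fintype.card V : ℝ))) ^ 2 ≤ (trans G k ^ 2) z z' := by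
    rw [pow_two, pow_two (trans G k), Matrix.mul_apply]
    refine (mul_le_mul h1 h2 hd (h0 _ _)).trans ?_
    exact Finset.single_le_sum (f := fun y => trans G k z y * trans G k y z')
      (fun y _ => mul_nonneg (h0 _ _) (h0 _ _)) (mem_univ w)
  have e2 : (trans G k ^ 2) z z' * (f z - f z') ^ 2 ≤ energy f z := by
    unfold energy
    exact Finset.single_le_sum (f := fun y => (trans G k ^ 2) z y * (f z - f y) ^ 2)
      (fun y _ => mul_nonneg (hP _ _) (sq_nonneg _)) (mem_univ z')
  have e3 : (1 / (2 * (Fintype.card V : ℝ))) ^ 2 * (f z - f z') ^ 2 ≤ energy f z :=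
    (mul_le_mul_of_nonneg_right e1 (sq_nonneg _)).trans e2
  have e4 := mul_le_mul_of_nonneg_left e3 (sq_nonneg (2 * (Fintype.card V : ℝ)))
  have e5 : (2 * (Fintype.card V : ℝ)) ^ 2 * ((1 / (2 * (Fintype.card V : ℝ))) ^ 2 * (f z - f z') ^ 2) =
      (f z - f z') ^ 2 := by
    rw [← mul_assoc, ← mul_pow, mul_one_div, div_self hn.ne', one_pow, one_mul]
  rw [e5] at e4
  exact e4

private theorem Loc_walk {G : SimpleGraph V} {k : ℕ} [Nonempty V]
    (h0 : ∀ φ ψ, 0 ≤ trans G k φ ψ) (f : Height G k → ℝ) (F : Finset (Height G k)) (v : Height G k) :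
    ∀ (j : ℕ) (u : Height G k), Conn (F : Set (Height G k)) (2 * j) u v →
      |f u - f v| ≤ j * ((2 * (Fintype.card V : ℝ)) * Real.sqrt (∑ z ∈ F, energy f z)) := by
  intro j
  induction j with
  | zero =>
    intro u h
    rw [Loc_inv0 h rfl]
    simp
  | succ j ih =>
    intro u h
    obtain ⟨w, hu, h1, hc⟩ := Loc_invS (m := 2 * j + 1) h (by ring)
    obtain ⟨w', _, h2, hc'⟩ := Loc_invS (m := 2 * j) hc rfl
    have e1 := ih w' hc'
    have e2 := Loc_two h0 f u w w' h1 h2
    have e3 : energy f u ≤ ∑ z ∈ F, energy f z :=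
      Finset.single_le_sum (f := fun z => energy f z) (fun z _ => Loc_energy_nonneg h0 f z)
        (Finset.mem_coe.1 hu)
    have hn : (0 : ℝ) ≤ 2 * (Fintype.card V : ℝ) := by positivity
    have e4 : |f u - f w'| ≤ (2 * (Fintype.card V : ℝ)) * Real.sqrt (∑ z ∈ F, energy f z) := by
      have e5 : (2 * (Fintype.card V : ℝ)) * Real.sqrt (∑ z ∈ F, energy f z) =
          Real.sqrt ((2 * (Fintype.card V : ℝ)) ^ 2 * ∑ z ∈ F, energy f z) := by
        rw [Real.sqrt_mul (sq_nonneg _), Real.sqrt_sq hn]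
      rw [e5]
      refine Real.abs_le_sqrt (e2.trans ?_)
      exact mul_le_mul_of_nonneg_left e3 (sq_nonneg _)
    have e6 : |f u - f v| ≤ |f u - f w'| + |f w' - f v| := abs_sub_le _ _ _
    push_cast
    linarith

theorem tLoc : S_Def → S_Mono → S_Loc := by
  intro hDef hMono V _ _ G k f u v hz
  obtain ⟨a, ha⟩ := hz
  obtain ⟨hs, h0, -, -, hloop⟩ := hDef V G k
  -- the minimum
  obtain ⟨m, hm⟩ : ∃ m : Height G k, ∀ x, m.val x = min (u.val x) (v.val x) := by
    refine ⟨⟨fun x => if u.val x ≤ v.val x then u.1 x else v.1 x, ?_⟩, ?_⟩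
    · intro x y hxy
      have e1 := u.2 x y hxy
      have e2 := v.2 x y hxy
      show ((if u.val x ≤ v.val x then u.1 x else v.1 x : Fin (k + 1)) : ℕ) ≤
        ((if u.val y ≤ v.val y then u.1 y else v.1 y : Fin (k + 1)) : ℕ) + 1
      unfold Height.val
      split_ifs <;> omega
    · intro x
      show ((if u.val x ≤ v.val x then u.1 x else v.1 x : Fin (k + 1)) : ℕ) = _
      unfold Height.val
      split_ifs <;> omega
  have hmu : ∀ x, m.val x ≤ u.val x := fun x => by rw [hm]; exact min_le_left _ _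
  have hmv : ∀ x, m.val x ≤ v.val x := fun x => by rw [hm]; exact min_le_right _ _
  have c1 := Loc_rev hs (hMono V G k m u hmu)
  have c2 := hMono V G k m v hmv
  have b1 : {z : Height G k | ∀ x, m.val x ≤ z.val x ∧ z.val x ≤ u.val x} ⊆
      ((between u v : Finset (Height G k)) : Set (Height G k)) := by
    intro z hz
    rw [Finset.mem_coe, between, Finset.mem_filter]
    refine ⟨mem_univ _, fun x hx => ?_⟩
    have e1 := hz x
    have e2 := hm x
    omega
  have b2 : {z : Height G k | ∀ x, m.val x ≤ z.val x ∧ z.val x ≤ v.val x} ⊆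
      ((between u v : Finset (Height G k)) : Set (Height G k)) := by
    intro z hz
    rw [Finset.mem_coe, between, Finset.mem_filter]
    refine ⟨mem_univ _, fun x hx => ?_⟩
    have e1 := hz x
    have e2 := hm x
    omega
  have c3 := Loc_append (Loc_mono b1 c1) (Loc_mono b2 c2)
  obtain ⟨L, hL⟩ : ∃ L, L = ∑ x, (u.val x - m.val x) + ∑ x, (v.val x - m.val x) := ⟨_, rfl⟩
  rw [← hL] at c3
  have hLk : L ≤ k * Fintype.card V := by
    rw [hL, ← Finset.sum_add_distrib, mul_comm, ← smul_eq_mul, ← Finset.card_univ, ← Finset.sum_const]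
    refine Finset.sum_le_sum fun x _ => ?_
    have e1 := hm x
    have e2 : u.val x ≤ k := Nat.lt_succ_iff.1 (u.1 x).2
    have e3 : v.val x ≤ k := Nat.lt_succ_iff.1 (v.1 x).2
    omega
  have huF : u ∈ ((between u v : Finset (Height G k)) : Set (Height G k)) := by
    rw [Finset.mem_coe, between, Finset.mem_filter]
    exact ⟨mem_univ _, fun x _ => rfl⟩
  obtain ⟨j, hj, hc⟩ : ∃ j, j ≤ k * Fintype.card V + 1 ∧
      Conn ((between u v : Finset (Height G k)) : Set (Height G k)) (2 * j) u v := by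
    rcases Nat.even_or_odd' L with ⟨j, hj | hj⟩
    · refine ⟨j, by omega, ?_⟩
      rw [← hj]
      exact c3
    · refine ⟨j + 1, by omega, ?_⟩
      have e1 : 2 * (j + 1) = L + 1 := by omega
      rw [e1]
      exact Conn.cons L u u v huF (hloop u a ha) c3
  have key := Loc_walk h0 f (between u v) v j u hc
  have hE : 0 ≤ ∑ z ∈ between u v, energy f z :=
    Finset.sum_nonneg fun z _ => Loc_energy_nonneg h0 f z
  have hn : (0 : ℝ) ≤ 2 * (Fintype.card V : ℝ) := by positivity
  have e1 : (f u - f v) ^ 2 ≤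
      (j * ((2 * (Fintype.card V : ℝ)) * Real.sqrt (∑ z ∈ between u v, energy f z))) ^ 2 := by
    rw [← sq_abs (f u - f v)]
    exact pow_le_pow_left₀ (abs_nonneg _) key 2
  have e2 : (j * ((2 * (Fintype.card V : ℝ)) * Real.sqrt (∑ z ∈ between u v, energy f z))) ^ 2 =
      (j : ℝ) ^ 2 * (2 * (Fintype.card V : ℝ)) ^ 2 * ∑ z ∈ between u v, energy f z := by
    rw [mul_pow, mul_pow, Real.sq_sqrt hE, mul_assoc]
  rw [e2] at e1
  refine e1.trans ?_
  have e3 : (j : ℝ) ≤ ((k * Fintype.card V + 1 : ℕ) : ℝ) := by exact_mod_cast hj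
  have e4 : (j : ℝ) ^ 2 ≤ ((k * Fintype.card V + 1 : ℕ) : ℝ) ^ 2 :=
    pow_le_pow_left₀ (Nat.cast_nonneg _) e3 2
  exact mul_le_mul_of_nonneg_right (mul_le_mul_of_nonneg_right e4 (sq_nonneg _)) hE

end Pool.Agent.Lib.MP_6886f9_pr
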