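import Pool.Agent.Lib.MP_6886f9_pr.Spec

/-!
MP_6886f9_pr, project KH, module Main (helper14): the main theorem from the modules.
-/

set_option autoImplicit false

namespace Pool.Agent.Lib.MP_6886f9_pr

open Finset

private theorem Main_card {V : Type} [Fintype V] (G : SimpleGraph V) (k : ℕ) :
    Fintype.card (Height G k) ≤ (k + 1) ^ Fintype.card V := by
  classical
  have h1 : Function.Injective (fun φ : Height G k => φ.1) := fun a b h => Subtype.ext h
  have h2 := Fintype.card_le_of_injective _ h1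
  rwa [Fintype.card_fun, Fintype.card_fin] at h2

private theorem Main_log {V : Type} [Fintype V] (G : SimpleGraph V) (k : ℕ) (hne : Nonempty (Height G k)) :
    Real.log (Fintype.card (Height G k)) ≤ (Fintype.card V : ℝ) * Real.log ((k : ℝ) + 1) := by
  have h1 : (Fintype.card (Height G k) : ℝ) ≤ ((k : ℝ) + 1) ^ Fintype.card V := by
    exact_mod_cast Main_card G k
  have h2 : (0 : ℝ) < (Fintype.card (Height G k) : ℝ) := by exact_mod_cast Fintype.card_pos
  have h3 := Real.log_le_log h2 h1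
  rwa [Real.log_pow] at h3

theorem tMain : S_Def → S_Poi → S_Ctr → S_Lay → S_Main := by
  intro hDef hPoi hCtr hLay V _ _ G k D p r X hD hX ε hε hε1 t ht
  obtain ⟨A, S, hL⟩ := hLay V G k D p r X hD hX
  obtain ⟨hsym, hnn, hsum, -, -⟩ := hDef V G k
  have hn1 : 1 ≤ Fintype.card V := Fintype.card_pos
  have hne : Nonempty (Height G k) := ⟨⟨fun _ => 0, fun v w _ => Nat.le_succ _⟩⟩
  have hn1' : (1 : ℝ) ≤ (Fintype.card V : ℝ) := by exact_mod_cast hn1
  have hC1 : (1 : ℝ) ≤ ((r + 1 : ℕ) : ℝ) ^ 2 * ((k * Fintype.card V + 1 : ℕ) : ℝ) ^ 2 *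
      (2 * (Fintype.card V : ℝ)) ^ 2 * ((k + 1 : ℕ) : ℝ) ^ (4 * (p * (D + 1) ^ k)) := by
    have a1 : (1 : ℝ) ≤ ((r + 1 : ℕ) : ℝ) ^ 2 :=
      one_le_pow₀ (by exact_mod_cast Nat.le_add_left 1 r)
    have a2 : (1 : ℝ) ≤ ((k * Fintype.card V + 1 : ℕ) : ℝ) ^ 2 :=
      one_le_pow₀ (by exact_mod_cast Nat.le_add_left 1 _)
    have a3 : (1 : ℝ) ≤ (2 * (Fintype.card V : ℝ)) ^ 2 := one_le_pow₀ (by linarith)
    have a4 : (1 : ℝ) ≤ ((k + 1 : ℕ) : ℝ) ^ (4 * (p * (D + 1) ^ k)) :=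
      one_le_pow₀ (by exact_mod_cast Nat.le_add_left 1 k)
    exact one_le_mul_of_one_le_of_one_le (one_le_mul_of_one_le_of_one_le
      (one_le_mul_of_one_le_of_one_le a1 a2) a3) a4
  intro φ
  refine hCtr (Height G k) (trans G k) _ hC1 hsym hnn hsum ?_ ε hε t ?_ φ
  · intro f
    exact hPoi V G k A S (r + 1) (p * (D + 1) ^ k) hL f
  · refine le_trans ?_ ht
    have h1 := Main_log G k hne
    refine (mul_le_mul_of_nonneg_left (add_le_add_left h1 (2 * Real.log (1 / ε)))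
      (zero_le_one.trans hC1)).trans (le_of_eq ?_)
    unfold bound
    push_cast
    ring

end Pool.Agent.Lib.MP_6886f9_pr
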