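import Pool.Agent.Lib.MP_6886f9_pr.Spec

/-!
MP_6886f9_pr, project KH, module Mono: between two comparable heights there is a monotone walk of
moves all of whose states lie between them.
-/

set_option autoImplicit false

namespace Pool.Agent.Lib.MP_6886f9_pr

open Finset

private lemma Mono_mono {V : Type} [Fintype V] {G : SimpleGraph V} {k : ℕ}
    {Z Z' : Set (Height G k)} (hZ : Z ⊆ Z') {l : ℕ} {u v : Height G k} (h : Conn Z l u v) :
    Conn Z' l u v := by
  induction h with
  | nil u hu => exact Conn.nil u (hZ hu)
  | cons l u w v hu h _ ih => exact Conn.cons l u w v (hZ hu) h ih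

/-- Raising a minimal vertex among those where `a < b`. -/
private lemma Mono_raise {V : Type} [Fintype V] {G : SimpleGraph V} {k : ℕ} (a b : Height G k)
    (hab : ∀ v, a.val v ≤ b.val v) (v : V) (hv : a.val v < b.val v)
    (hmin : ∀ w, a.val w < b.val w → a.val v ≤ a.val w) :
    ∃ a' : Height G k, (∀ w, w ≠ v → a'.val w = a.val w) ∧ a'.val v = a.val v + 1 := by
  classical
  have hk : a.val v + 1 < k + 1 := by
    have h1 : b.val v < k + 1 := (b.1 v).2
    omega
  have hnb : ∀ w, G.Adj v w → a.val v ≤ a.val w := by
    intro w hw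
    by_contra hc
    have hc' : a.val w < a.val v := not_le.mp hc
    have h1 : ¬ a.val w < b.val w := fun h => hc (hmin w h)
    have h2 := hab w
    have h3 : b.val v ≤ b.val w + 1 := b.2 v w hw
    omega
  let f : V → Fin (k + 1) := Function.update a.1 v ⟨a.val v + 1, hk⟩
  have hf1 : ∀ w, w ≠ v → (f w : ℕ) = a.val w := by
    intro w hw
    change ((Function.update a.1 v ⟨a.val v + 1, hk⟩ w : Fin (k + 1)) : ℕ) = a.val w
    rw [Function.update_of_ne hw]
    rfl
  have hf2 : (f v : ℕ) = a.val v + 1 := by
    change ((Function.update a.1 v ⟨a.val v + 1, hk⟩ v : Fin (k + 1)) : ℕ) = a.val v + 1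
    rw [Function.update_self]
  have hf : ∀ x y, G.Adj x y → (f x : ℕ) ≤ (f y : ℕ) + 1 := by
    intro x y hxy
    have h0 : a.val x ≤ a.val y + 1 := a.2 x y hxy
    by_cases hx : x = v
    · subst hx
      have hy : y ≠ x := hxy.ne'
      rw [hf2, hf1 y hy]
      have := hnb y hxy
      omega
    · by_cases hy : y = v
      · subst hy
        rw [hf2, hf1 x hx]
        omega
      · rw [hf1 x hx, hf1 y hy]
        exact h0
  exact ⟨⟨f, hf⟩, hf1, hf2⟩

private lemma Mono_ind (hDef : S_Def) {V : Type} [Fintype V] [Nonempty V] (G : SimpleGraph V)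
    (k : ℕ) (b : Height G k) : ∀ (n : ℕ) (a : Height G k), (∀ v, a.val v ≤ b.val v) →
    ∑ v, (b.val v - a.val v) = n →
    Conn {z : Height G k | ∀ v, a.val v ≤ z.val v ∧ z.val v ≤ b.val v} n a b := by
  classical
  intro n
  induction n with
  | zero =>
    intro a hab hs
    have h1 : ∀ v, b.val v - a.val v = 0 := by
      intro v
      exact (Finset.sum_eq_zero_iff.mp hs) v (Finset.mem_univ v)
    have h2 : a = b := by
      apply Subtype.ext
      funext v
      apply Fin.ext
      have h3 := h1 v
      have h4 := hab v
      change a.val v = b.val v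
      omega
    subst h2
    exact Conn.nil a (fun v => ⟨le_rfl, le_rfl⟩)
  | succ n ih =>
    intro a hab hs
    have hne : (univ.filter fun v => a.val v < b.val v).Nonempty := by
      by_contra hc
      rw [Finset.not_nonempty_iff_eq_empty] at hc
      have h1 : ∑ v, (b.val v - a.val v) = 0 := by
        apply Finset.sum_eq_zero
        intro v _
        have h2 : v ∉ (univ.filter fun v => a.val v < b.val v) := by
          rw [hc]
          exact Finset.notMem_empty v
        have h3 : ¬ a.val v < b.val v := fun h => h2 (Finset.mem_filter.mpr ⟨Finset.mem_univ v, h⟩)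
        omega
      omega
    obtain ⟨v, hv, hmin⟩ := Finset.exists_min_image _ a.val hne
    have hv' : a.val v < b.val v := (Finset.mem_filter.mp hv).2
    obtain ⟨a', h1, h2⟩ := Mono_raise a b hab v hv'
      (fun w hw => hmin w (Finset.mem_filter.mpr ⟨Finset.mem_univ w, hw⟩))
    have haa : ∀ w, a.val w ≤ a'.val w := by
      intro w
      by_cases hw : w = v
      · subst hw
        omega
      · rw [h1 w hw]
    have hab' : ∀ w, a'.val w ≤ b.val w := by
      intro w
      by_cases hw : w = v
      · subst hw
        omega
      · rw [h1 w hw]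
        exact hab w
    have hsum : ∑ w, (b.val w - a'.val w) = n := by
      have h3 : ∑ w, (b.val w - a.val w)
          = ∑ w, ((b.val w - a'.val w) + if w = v then 1 else 0) := by
        apply Finset.sum_congr rfl
        intro w _
        by_cases hw : w = v
        · subst hw
          rw [if_pos rfl]
          omega
        · rw [if_neg hw, h1 w hw]
          rfl
      rw [Finset.sum_add_distrib, Finset.sum_ite_eq' Finset.univ v, if_pos (Finset.mem_univ v)]
        at h3
      omega
    have hmove : IsMove a v true a' := ⟨h1, by rw [if_pos rfl]; exact h2⟩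
    have htr := (hDef V G k).2.2.2.1 a a' v true hmove
    refine Conn.cons n a a' b (fun w => ⟨le_rfl, hab w⟩) htr (Mono_mono ?_ (ih a' hab' hsum))
    intro z hz w
    exact ⟨(haa w).trans (hz w).1, (hz w).2⟩

/-- Monotone walks between comparable heights. -/
theorem tMono : S_Def → S_Mono := by
  intro hDef V _ _ G k a b hab
  exact Mono_ind hDef G k b _ a hab rfl

end Pool.Agent.Lib.MP_6886f9_pr
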