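import Pool.Agent.Lib.MP_6886f9_pr.Spec

/-!
# Poi: the Poincare inequality of the two-step chain
-/

set_option autoImplicit false

namespace Pool.Agent.Lib.MP_6886f9_pr

open Finset

private theorem Poi_energy_nonneg (hDef : S_Def) (V : Type) [Fintype V] [Nonempty V]
    (G : SimpleGraph V) (k : ℕ) (f : Height G k → ℝ) (z : Height G k) : 0 ≤ energy f z := by
  unfold energy
  refine Finset.sum_nonneg fun w _ => mul_nonneg ?_ (sq_nonneg _)
  rw [pow_two, Matrix.mul_apply]
  exact Finset.sum_nonneg fun u _ =>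
    mul_nonneg ((hDef V G k).2.1 z u) ((hDef V G k).2.1 u w)

private theorem Poi_between_comm {V : Type} [Fintype V] {G : SimpleGraph V} {k : ℕ}
    (u v : Height G k) : between u v = between v u := by
  unfold between
  ext z
  simp only [mem_filter, mem_univ, true_and]
  constructor
  · intro h a ha
    exact (h a ha.symm).trans ha.symm
  · intro h a ha
    exact (h a ha.symm).trans ha.symm

open Classical in
private theorem Poi_count {Ω : Type} [Fintype Ω] (B : Ω → Ω → Finset Ω) (e : Ω → ℝ)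
    (he : ∀ z, 0 ≤ e z) (M : ℕ) (hM : ∀ z, Nat.card {q : Ω × Ω // z ∈ B q.1 q.2} ≤ M) :
    ∑ x, ∑ y, ∑ z ∈ B x y, e z ≤ (M : ℝ) * ∑ z, e z := by
  have h1 : ∀ x y, ∑ z ∈ B x y, e z = ∑ z, if z ∈ B x y then e z else 0 := by
    intro x y
    rw [Finset.sum_ite_mem, Finset.univ_inter]
  calc ∑ x, ∑ y, ∑ z ∈ B x y, e z
      = ∑ x, ∑ y, ∑ z, (if z ∈ B x y then e z else 0) := by simp only [h1]
    _ = ∑ q : Ω × Ω, ∑ z, (if z ∈ B q.1 q.2 then e z else 0) := by
        rw [Fintype.sum_prod_type]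
    _ = ∑ z, ∑ q : Ω × Ω, (if z ∈ B q.1 q.2 then e z else 0) := Finset.sum_comm
    _ = ∑ z, (Nat.card {q : Ω × Ω // z ∈ B q.1 q.2} : ℝ) * e z := by
        refine Finset.sum_congr rfl fun z _ => ?_
        rw [← Finset.sum_filter, Finset.sum_const, nsmul_eq_mul, Nat.card_eq_fintype_card,
          Fintype.card_subtype]
    _ ≤ ∑ z, (M : ℝ) * e z := Finset.sum_le_sum fun z _ =>
        mul_le_mul_of_nonneg_right (by exact_mod_cast hM z) (he z)
    _ = (M : ℝ) * ∑ z, e z := by rw [Finset.mul_sum]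

private theorem Poi_swap {Ω : Type} [Fintype Ω] (T : ℕ) (c R : ℝ) (g : ℕ → Ω → Ω → ℝ) :
    ∑ x, ∑ y, c * ∑ s ∈ range T, R * g s x y =
      c * R * ∑ s ∈ range T, ∑ x, ∑ y, g s x y := by
  have h1 : ∑ s ∈ range T, ∑ x, ∑ y, g s x y = ∑ x, ∑ y, ∑ s ∈ range T, g s x y := by
    rw [Finset.sum_comm]
    refine Finset.sum_congr rfl fun x _ => ?_
    rw [Finset.sum_comm]
  rw [h1, Finset.mul_sum]
  refine Finset.sum_congr rfl fun x _ => ?_
  rw [Finset.mul_sum]
  refine Finset.sum_congr rfl fun y _ => ?_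
  rw [← Finset.mul_sum]
  ring

/-- Poi: the Poincare inequality of the two-step chain. -/
theorem tPoi : S_Def → S_Loc → S_Stage → S_Poi := by
  intro hDef hLoc hStage V _ _ G k A S T b hL f
  obtain ⟨H, H0, HT, hz, hcnt⟩ := hStage V G k A S T b hL
  obtain ⟨R, hR⟩ : ∃ R : ℝ, R = ((k * Fintype.card V + 1 : ℕ) : ℝ) ^ 2 *
      (2 * (Fintype.card V : ℝ)) ^ 2 := ⟨_, rfl⟩
  have hR0 : 0 ≤ R := by rw [hR]; positivity
  have he := Poi_energy_nonneg hDef V G k f
  have hstep : ∀ s, s < T → ∀ x y, (f (H s x y) - f (H (s + 1) x y)) ^ 2 ≤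
      R * ∑ z ∈ between (H s x y) (H (s + 1) x y), energy f z := by
    intro s hs x y
    rw [hR]
    rcases hz s x y hs with h | h
    · exact hLoc V G k f _ _ h
    · have h1 := hLoc V G k f _ (H s x y) h
      rw [Poi_between_comm] at h1
      have h2 : (f (H s x y) - f (H (s + 1) x y)) ^ 2 =
          (f (H (s + 1) x y) - f (H s x y)) ^ 2 := by ring
      rw [h2]
      exact h1
  have hxy : ∀ x y, (f x - f y) ^ 2 ≤ (T : ℝ) * ∑ s ∈ range T,
      R * ∑ z ∈ between (H s x y) (H (s + 1) x y), energy f z := by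
    intro x y
    have h1 : f x - f y = ∑ s ∈ range T, (f (H s x y) - f (H (s + 1) x y)) := by
      rw [Finset.sum_range_sub' (fun s => f (H s x y)), H0, HT]
    rw [h1]
    refine (sq_sum_le_card_mul_sum_sq).trans ?_
    rw [card_range]
    exact mul_le_mul_of_nonneg_left
      (sum_le_sum fun s hs => hstep s (mem_range.mp hs) x y) (Nat.cast_nonneg _)
  have hone : ∀ s ∈ range T, ∑ x, ∑ y, ∑ z ∈ between (H s x y) (H (s + 1) x y), energy f z ≤
      ((Fintype.card (Height G k) * (k + 1) ^ (4 * b) : ℕ) : ℝ) * ∑ z, energy f z :=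
    fun s hs => Poi_count (fun x y => between (H s x y) (H (s + 1) x y)) (energy f) he _
      (hcnt s (mem_range.mp hs))
  calc ∑ x, ∑ y, (f x - f y) ^ 2
      ≤ ∑ x, ∑ y, (T : ℝ) * ∑ s ∈ range T,
        R * ∑ z ∈ between (H s x y) (H (s + 1) x y), energy f z :=
        sum_le_sum fun x _ => sum_le_sum fun y _ => hxy x y
    _ = (T : ℝ) * R * ∑ s ∈ range T, ∑ x, ∑ y,
        ∑ z ∈ between (H s x y) (H (s + 1) x y), energy f z :=
        Poi_swap T (T : ℝ) R fun s x y => ∑ z ∈ between (H s x y) (H (s + 1) x y), energy f z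
    _ ≤ (T : ℝ) * R * ∑ s ∈ range T,
        ((Fintype.card (Height G k) * (k + 1) ^ (4 * b) : ℕ) : ℝ) * ∑ z, energy f z :=
        mul_le_mul_of_nonneg_left (sum_le_sum hone) (mul_nonneg (Nat.cast_nonneg _) hR0)
    _ = _ := by
        rw [sum_const, card_range, nsmul_eq_mul, hR]
        push_cast
        ring

end Pool.Agent.Lib.MP_6886f9_pr
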