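import Mathlib

/-!
MP_6886f9_pr, project KH: the up/down chain on k-heights mixes rapidly on graphs of bounded
degree and logarithmic path-width, for every k.  Definitions and statements of the modules.
-/

namespace Pool.Agent.Lib.MP_6886f9_pr

open Finset

variable {V : Type} [Fintype V]

/-- The set of the `k`-heights of the graph `G`: the maps `V → {0, …, k}` whose values at the two
ends of an edge differ by at most one. -/
def Height (G : SimpleGraph V) (k : ℕ) : Type :=
  {φ : V → Fin (k + 1) // ∀ v w, G.Adj v w → (φ v : ℕ) ≤ (φ w : ℕ) + 1}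

noncomputable instance (G : SimpleGraph V) (k : ℕ) : DecidableEq (Height G k) :=
  Classical.decEq _

noncomputable instance (G : SimpleGraph V) (k : ℕ) : Fintype (Height G k) := by
  classical
  unfold Height
  exact Fintype.ofFinite _

/-- The value of a height at a vertex, a natural number at most `k`. -/
def Height.val {G : SimpleGraph V} {k : ℕ} (φ : Height G k) (v : V) : ℕ := (φ.1 v : ℕ)

/-- `ψ` is obtained from `φ` by raising (`up = true`) or lowering (`up = false`) the value at `v`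
by one. -/
def IsMove {G : SimpleGraph V} {k : ℕ} (φ : Height G k) (v : V) (up : Bool)
    (ψ : Height G k) : Prop :=
  (∀ w, w ≠ v → ψ.val w = φ.val w) ∧
    (if up then ψ.val v = φ.val v + 1 else φ.val v = ψ.val v + 1)

/-- The state after the proposal `(v, up)` made in the state `φ` is `ψ`: the moved height if the
moved function is a height, and `φ` itself otherwise. -/
def Result {G : SimpleGraph V} {k : ℕ} (φ : Height G k) (v : V) (up : Bool)
    (ψ : Height G k) : Prop :=
  IsMove φ v up ψ ∨ (ψ = φ ∧ ¬ ∃ χ, IsMove φ v up χ)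

open Classical in
/-- The transition matrix of the up/down chain: a uniformly random vertex and an independent
uniformly random direction are proposed. -/
noncomputable def trans (G : SimpleGraph V) (k : ℕ) : Matrix (Height G k) (Height G k) ℝ :=
  fun φ ψ => ((univ.filter fun p : V × Bool => Result φ p.1 p.2 ψ).card : ℝ) /
    (2 * (Fintype.card V : ℝ))

/-- After `t` steps the distribution of the chain is within total variation distance `ε` of the
uniform distribution on the heights, whatever the initial state. -/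
def Mixed (G : SimpleGraph V) (k : ℕ) (ε : ℝ) (t : ℕ) : Prop :=
  ∀ φ : Height G k,
    (1 / 2) * ∑ ψ, |(trans G k ^ t) φ ψ - 1 / (Fintype.card (Height G k) : ℝ)| ≤ ε

/-- The mixing time. -/
noncomputable def tau (G : SimpleGraph V) (k : ℕ) (ε : ℝ) : ℕ := sInf {t | Mixed G k ε t}

/-- `X` is a path decomposition of `G` into nonempty bags of at most `p` vertices. -/
structure IsPathDecomp (G : SimpleGraph V) {r : ℕ} (X : Fin r → Finset V) (p : ℕ) : Prop where
  nonempty : ∀ i, (X i).Nonempty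
  card_le : ∀ i, (X i).card ≤ p
  cover : ∀ v, ∃ i, v ∈ X i
  edge : ∀ u v, G.Adj u v → ∃ i, u ∈ X i ∧ v ∈ X i
  interval : ∀ i j l, i ≤ j → j ≤ l → ∀ v, v ∈ X i → v ∈ X l → v ∈ X j

/-- Every vertex has at most `D` neighbours. -/
def DegLE (G : SimpleGraph V) (D : ℕ) : Prop :=
  ∀ v, ∃ N : Finset V, (∀ w, G.Adj v w → w ∈ N) ∧ N.card ≤ D

/-! ### Internal notions -/

/-- `Conn Z l u v`: a walk of `l` steps of probability at least `1 / (2 n)` from `u` to `v` all of
whose states are in `Z`. -/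
inductive Conn {G : SimpleGraph V} {k : ℕ} (Z : Set (Height G k)) :
    ℕ → Height G k → Height G k → Prop
  | nil (u : Height G k) (hu : u ∈ Z) : Conn Z 0 u u
  | cons (l : ℕ) (u w v : Height G k) (hu : u ∈ Z)
      (h : 1 / (2 * (Fintype.card V : ℝ)) ≤ trans G k u w) (hw : Conn Z l w v) :
      Conn Z (l + 1) u v

/-- The local energy of `f` for the two-step chain. -/
noncomputable def energy {G : SimpleGraph V} {k : ℕ} (f : Height G k → ℝ) (z : Height G k) : ℝ :=
  ∑ w, (trans G k ^ 2) z w * (f z - f w) ^ 2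

open Classical in
/-- The states that agree with `u` wherever `u` and `v` agree. -/
noncomputable def between {G : SimpleGraph V} {k : ℕ} (u v : Height G k) : Finset (Height G k) :=
  univ.filter fun z => ∀ a, u.val a = v.val a → z.val a = u.val a

open Classical in
/-- The vertices at distance at most `i` from `S`. -/
noncomputable def nb (G : SimpleGraph V) (S : Finset V) : ℕ → Finset V
  | 0 => S
  | i + 1 => nb G S i ∪ univ.filter fun v => ∃ u ∈ nb G S i, G.Adj u v

/-- A sequence of cuts `A s` with separators `S s`. -/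
structure Layout (G : SimpleGraph V) (k : ℕ) (A S : ℕ → Finset V) (T b : ℕ) : Prop where
  A_zero : A 0 = ∅
  S_zero : S 0 = ∅
  A_last : A T = univ
  S_last : S T = ∅
  cross : ∀ s u v, G.Adj u v → u ∈ A s → v ∉ A s → u ∈ S s
  mono : ∀ s, A s ⊆ A (s + 1)
  new : ∀ s v, v ∈ A (s + 1) → v ∉ A s → v ∈ S s ∨ v ∈ S (s + 1)
  ne : ∀ s, s < T → (S s).Nonempty ∨ (S (s + 1)).Nonempty
  nbhd : ∀ s, (nb G (S s) k).card ≤ b

/-! ### Statements -/

/-- Def: the chain is symmetric and stochastic. -/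
def S_Def : Prop := ∀ (V : Type) [Fintype V] [Nonempty V] (G : SimpleGraph V) (k : ℕ),
  (∀ φ ψ, trans G k φ ψ = trans G k ψ φ) ∧ (∀ φ ψ, 0 ≤ trans G k φ ψ) ∧
  (∀ φ, ∑ ψ, trans G k φ ψ = 1) ∧
  (∀ (φ ψ : Height G k) (v : V) (up : Bool), IsMove φ v up ψ →
    1 / (2 * (Fintype.card V : ℝ)) ≤ trans G k φ ψ) ∧
  (∀ (φ : Height G k) (v : V), φ.val v = 0 → 1 / (2 * (Fintype.card V : ℝ)) ≤ trans G k φ φ)

/-- Mono: monotone walks between comparable heights. -/
def S_Mono : Prop := ∀ (V : Type) [Fintype V] [Nonempty V] (G : SimpleGraph V) (k : ℕ)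
  (a b : Height G k), (∀ v, a.val v ≤ b.val v) →
  Conn {z : Height G k | ∀ v, a.val v ≤ z.val v ∧ z.val v ≤ b.val v}
    (∑ v, (b.val v - a.val v)) a b

/-- Loc: the local lemma. -/
def S_Loc : Prop := ∀ (V : Type) [Fintype V] [Nonempty V] (G : SimpleGraph V) (k : ℕ)
  (f : Height G k → ℝ) (u v : Height G k), (∃ a, u.val a = 0) →
  (f u - f v) ^ 2 ≤ ((k * Fintype.card V + 1 : ℕ) : ℝ) ^ 2 * (2 * (Fintype.card V : ℝ)) ^ 2 *
    ∑ z ∈ between u v, energy f z

/-- Stage: the intermediate heights and the count of the pairs that use a given state. -/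
def S_Stage : Prop := ∀ (V : Type) [Fintype V] [Nonempty V] (G : SimpleGraph V) (k : ℕ)
  (A S : ℕ → Finset V) (T b : ℕ), Layout G k A S T b →
  ∃ H : ℕ → Height G k → Height G k → Height G k,
    (∀ x y, H 0 x y = x) ∧ (∀ x y, H T x y = y) ∧
    (∀ s x y, s < T → (∃ a, (H s x y).val a = 0) ∨ (∃ a, (H (s + 1) x y).val a = 0)) ∧
    (∀ s, s < T → ∀ z : Height G k,
      Nat.card {q : Height G k × Height G k // z ∈ between (H s q.1 q.2) (H (s + 1) q.1 q.2)} ≤
        Fintype.card (Height G k) * (k + 1) ^ (4 * b))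

/-- Poi: the Poincare inequality of the two-step chain. -/
def S_Poi : Prop := ∀ (V : Type) [Fintype V] [Nonempty V] (G : SimpleGraph V) (k : ℕ)
  (A S : ℕ → Finset V) (T b : ℕ), Layout G k A S T b → ∀ f : Height G k → ℝ,
  ∑ x, ∑ y, (f x - f y) ^ 2 ≤
    ((T : ℝ) ^ 2 * ((k * Fintype.card V + 1 : ℕ) : ℝ) ^ 2 * (2 * (Fintype.card V : ℝ)) ^ 2 *
      ((k + 1 : ℕ) : ℝ) ^ (4 * b)) * (Fintype.card (Height G k) : ℝ) * ∑ z, energy f z

/-- Ctr: contraction and total variation bound for a symmetric stochastic matrix. -/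
def S_Ctr : Prop := ∀ (Ω : Type) [Fintype Ω] [DecidableEq Ω] [Nonempty Ω] (P : Matrix Ω Ω ℝ)
  (C : ℝ), 1 ≤ C → (∀ x y, P x y = P y x) → (∀ x y, 0 ≤ P x y) → (∀ x, ∑ y, P x y = 1) →
  (∀ f : Ω → ℝ, ∑ x, ∑ y, (f x - f y) ^ 2 ≤
    C * (Fintype.card Ω : ℝ) * ∑ z, ∑ w, (P ^ 2) z w * (f z - f w) ^ 2) →
  ∀ ε : ℝ, 0 < ε → ∀ t : ℕ, C * (Real.log (Fintype.card Ω) + 2 * Real.log (1 / ε)) ≤ t →
  ∀ x, (1 / 2) * ∑ y, |(P ^ t) x y - 1 / (Fintype.card Ω : ℝ)| ≤ ε

/-- Lay: a path decomposition gives a layout. -/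
def S_Lay : Prop := ∀ (V : Type) [Fintype V] [Nonempty V] (G : SimpleGraph V) (k D p r : ℕ)
  (X : Fin r → Finset V), DegLE G D → IsPathDecomp G X p →
  ∃ A S : ℕ → Finset V, Layout G k A S (r + 1) (p * (D + 1) ^ k)

/-- The bound of the main theorem. -/
noncomputable def bound (n k D p r : ℕ) (ε : ℝ) : ℝ :=
  4 * (n : ℝ) ^ 2 * ((k : ℝ) * n + 1) ^ 2 * ((r : ℝ) + 1) ^ 2 *
    ((k : ℝ) + 1) ^ (4 * (p * (D + 1) ^ k)) *
    ((n : ℝ) * Real.log ((k : ℝ) + 1) + 2 * Real.log (1 / ε))

/-- Main: the main theorem. -/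
def S_Main : Prop := ∀ (V : Type) [Fintype V] [Nonempty V] (G : SimpleGraph V) (k D p r : ℕ)
  (X : Fin r → Finset V), DegLE G D → IsPathDecomp G X p → ∀ ε : ℝ, 0 < ε → ε < 1 →
  ∀ t : ℕ, bound (Fintype.card V) k D p r ε ≤ t → Mixed G k ε t

/-- Tor: a path decomposition of the toroidal grid. -/
def S_Tor : Prop := ∀ a b : ℕ, 3 ≤ a → 3 ≤ b →
  DegLE (SimpleGraph.cycleGraph a □ SimpleGraph.cycleGraph b) 4 ∧
  ∃ (r : ℕ) (X : Fin r → Finset (Fin a × Fin b)), r + 1 ≤ max a b ∧
    IsPathDecomp (SimpleGraph.cycleGraph a □ SimpleGraph.cycleGraph b) X (3 * min a b)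

end Pool.Agent.Lib.MP_6886f9_pr
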