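import Pool.Agent.Lib.MP_6886f9_pr.Spec

/-!
MP_6886f9_pr, project KH, module Stage: the intermediate heights and the count of the pairs that
use a given state.
-/

set_option autoImplicit false

namespace Pool.Agent.Lib.MP_6886f9_pr

open Finset

section

variable {V : Type} [Fintype V]

private theorem Stage_nb_mono (G : SimpleGraph V) (S : Finset V) {i j : ℕ} (h : i ≤ j) :
    nb G S i ⊆ nb G S j := by
  classical
  induction j, h using Nat.le_induction with
  | base => exact Finset.Subset.refl _
  | succ j _ ih =>
    intro v hv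
    rw [nb]
    exact Finset.mem_union_left _ (ih hv)

private theorem Stage_nb_step (G : SimpleGraph V) (S : Finset V) {i : ℕ} {u v : V}
    (h : G.Adj u v) (hu : u ∈ nb G S i) : v ∈ nb G S (i + 1) := by
  classical
  rw [nb]
  apply Finset.mem_union_right
  rw [Finset.mem_filter]
  exact ⟨Finset.mem_univ _, u, hu, h⟩

open Classical in
private noncomputable def Stage_D (G : SimpleGraph V) (k : ℕ) (S : Finset V) (v : V) : ℕ :=
  ((Finset.range k).filter fun i => v ∉ nb G S i).card

private theorem Stage_D_le (G : SimpleGraph V) (k : ℕ) (S : Finset V) (v : V) :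
    Stage_D G k S v ≤ k := by
  classical
  unfold Stage_D
  exact (Finset.card_filter_le _ _).trans (by rw [Finset.card_range])

private theorem Stage_D_lip (G : SimpleGraph V) (k : ℕ) (S : Finset V) {u v : V}
    (h : G.Adj u v) : Stage_D G k S v ≤ Stage_D G k S u + 1 := by
  classical
  unfold Stage_D
  have hsub : ((Finset.range k).filter fun i => v ∉ nb G S i) ⊆
      insert 0 (((Finset.range k).filter fun i => u ∉ nb G S i).image Nat.succ) := by
    intro i hi
    rw [Finset.mem_filter, Finset.mem_range] at hi
    rw [Finset.mem_insert, Finset.mem_image]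
    rcases Nat.eq_zero_or_pos i with h0 | h0
    · exact Or.inl h0
    · refine Or.inr ⟨i - 1, ?_, by omega⟩
      rw [Finset.mem_filter, Finset.mem_range]
      refine ⟨by omega, fun hu => hi.2 ?_⟩
      have := Stage_nb_step G S h hu
      rwa [Nat.sub_add_cancel h0] at this
  refine (Finset.card_le_card hsub).trans ((Finset.card_insert_le _ _).trans ?_)
  exact Nat.add_le_add_right Finset.card_image_le 1

private theorem Stage_D_zero (G : SimpleGraph V) (k : ℕ) (S : Finset V) {v : V}
    (h : v ∈ S) : Stage_D G k S v = 0 := by
  classical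
  unfold Stage_D
  rw [Finset.card_eq_zero, Finset.filter_eq_empty_iff]
  intro i _ hv
  exact hv (Stage_nb_mono G S (Nat.zero_le i) (by simpa [nb] using h))

private theorem Stage_D_far (G : SimpleGraph V) (k : ℕ) (S : Finset V) {v : V}
    (h : v ∉ nb G S k) : Stage_D G k S v = k := by
  classical
  unfold Stage_D
  rw [Finset.filter_true_of_mem, Finset.card_range]
  intro i hi hv
  exact h (Stage_nb_mono G S (Finset.mem_range.mp hi).le hv)

open Classical in
private noncomputable def Stage_mk {G : SimpleGraph V} {k : ℕ} (A S : Finset V)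
    (hc : ∀ u v, G.Adj u v → u ∈ A → v ∉ A → u ∈ S) (x y : Height G k) : Height G k :=
  ⟨fun v => ⟨min (if v ∈ A then y.val v else x.val v) (Stage_D G k S v),
      Nat.lt_succ_of_le ((min_le_right _ _).trans (Stage_D_le G k S v))⟩, by
    intro v w hvw
    show min (if v ∈ A then y.val v else x.val v) (Stage_D G k S v) ≤
      min (if w ∈ A then y.val w else x.val w) (Stage_D G k S w) + 1
    have hD : Stage_D G k S v ≤ Stage_D G k S w + 1 := Stage_D_lip G k S hvw.symm
    by_cases hv : v ∈ A
    · by_cases hw : w ∈ A
      · rw [if_pos hv, if_pos hw]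
        have := y.2 v w hvw
        change y.val v ≤ y.val w + 1 at this
        omega
      · have h0 : Stage_D G k S v = 0 := Stage_D_zero G k S (hc v w hvw hv hw)
        rw [h0]
        simp
    · by_cases hw : w ∈ A
      · have h0 : Stage_D G k S w = 0 := Stage_D_zero G k S (hc w v hvw.symm hw hv)
        rw [h0] at hD ⊢
        simp only [Nat.min_zero]
        omega
      · rw [if_neg hv, if_neg hw]
        have := x.2 v w hvw
        change x.val v ≤ x.val w + 1 at this
        omega⟩

open Classical in
private theorem Stage_mk_val {G : SimpleGraph V} {k : ℕ} (A S : Finset V)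
    (hc : ∀ u v, G.Adj u v → u ∈ A → v ∉ A → u ∈ S) (x y : Height G k) (v : V) :
    (Stage_mk A S hc x y).val v =
      min (if v ∈ A then y.val v else x.val v) (Stage_D G k S v) := rfl

private theorem Stage_ext {G : SimpleGraph V} {k : ℕ} {x y : Height G k}
    (h : ∀ v, x.val v = y.val v) : x = y :=
  Subtype.ext (funext fun v => Fin.ext (h v))

private theorem Stage_val_le {G : SimpleGraph V} {k : ℕ} (x : Height G k) (v : V) :
    x.val v ≤ k := Nat.le_of_lt_succ (x.1 v).2

open Classical in
private theorem Stage_mk_far {G : SimpleGraph V} {k : ℕ} (A S : Finset V)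
    (hc : ∀ u v, G.Adj u v → u ∈ A → v ∉ A → u ∈ S) (x y : Height G k) (v : V)
    (h : v ∉ nb G S k) :
    (Stage_mk A S hc x y).val v = if v ∈ A then y.val v else x.val v := by
  rw [Stage_mk_val, Stage_D_far G k S h]
  split_ifs
  · exact min_eq_left (Stage_val_le _ _)
  · exact min_eq_left (Stage_val_le _ _)

private theorem Stage_nb_empty (G : SimpleGraph V) (i : ℕ) : nb G (∅ : Finset V) i = ∅ := by
  classical
  induction i with
  | zero => rfl
  | succ i ih => rw [nb, ih]; simp

end

theorem tStage : S_Stage := by
  classical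
  intro V _ _ G k A S T b hL
  let H : ℕ → Height G k → Height G k → Height G k :=
    fun s x y => Stage_mk (A s) (S s) (hL.cross s) x y
  refine ⟨H, ?_, ?_, ?_, ?_⟩
  · intro x y
    apply Stage_ext
    intro v
    show (Stage_mk (A 0) (S 0) (hL.cross 0) x y).val v = x.val v
    rw [Stage_mk_far, if_neg]
    · rw [hL.A_zero]; simp
    · rw [hL.S_zero, Stage_nb_empty]; simp
  · intro x y
    apply Stage_ext
    intro v
    show (Stage_mk (A T) (S T) (hL.cross T) x y).val v = y.val v
    rw [Stage_mk_far, if_pos]
    · rw [hL.A_last]; simp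
    · rw [hL.S_last, Stage_nb_empty]; simp
  · intro s x y hs
    rcases hL.ne s hs with ⟨a, ha⟩ | ⟨a, ha⟩
    · left
      refine ⟨a, ?_⟩
      show (Stage_mk (A s) (S s) (hL.cross s) x y).val a = 0
      rw [Stage_mk_val, Stage_D_zero G k _ ha]
      simp
    · right
      refine ⟨a, ?_⟩
      show (Stage_mk (A (s + 1)) (S (s + 1)) (hL.cross (s + 1)) x y).val a = 0
      rw [Stage_mk_val, Stage_D_zero G k _ ha]
      simp
  · intro s hs z
    set B : Finset V := nb G (S s) k ∪ nb G (S (s + 1)) k with hB
    have hBcard : B.card ≤ 2 * b := by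
      refine (Finset.card_union_le _ _).trans ?_
      have h1 := hL.nbhd s
      have h2 := hL.nbhd (s + 1)
      omega
    have hfar : ∀ x y : Height G k, z ∈ between (H s x y) (H (s + 1) x y) → ∀ v, v ∉ B →
        z.val v = if v ∈ A (s + 1) then y.val v else x.val v := by
      intro x y hz v hv
      have hv1 : v ∉ nb G (S s) k := fun h => hv (Finset.mem_union_left _ h)
      have hv2 : v ∉ nb G (S (s + 1)) k := fun h => hv (Finset.mem_union_right _ h)
      have e1 : (H s x y).val v = if v ∈ A s then y.val v else x.val v :=
        Stage_mk_far _ _ _ x y v hv1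
      have e2 : (H (s + 1) x y).val v = if v ∈ A (s + 1) then y.val v else x.val v :=
        Stage_mk_far _ _ _ x y v hv2
      have hA : v ∈ A s ↔ v ∈ A (s + 1) := by
        refine ⟨fun h => hL.mono s h, fun h => ?_⟩
        by_contra h'
        rcases hL.new s v h h' with h3 | h3
        · exact hv1 (Stage_nb_mono G _ (Nat.zero_le k) (by simpa [nb] using h3))
        · exact hv2 (Stage_nb_mono G _ (Nat.zero_le k) (by simpa [nb] using h3))
      have e3 : (H s x y).val v = (H (s + 1) x y).val v := by
        rw [e1, e2]
        by_cases h : v ∈ A s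
        · rw [if_pos h, if_pos (hA.mp h)]
        · rw [if_neg h, if_neg (fun h' => h (hA.mpr h'))]
      unfold between at hz
      rw [Finset.mem_filter] at hz
      rw [hz.2 v e3, e3, e2]
    let F : {q : Height G k × Height G k // z ∈ between (H s q.1 q.2) (H (s + 1) q.1 q.2)} →
        Height G k × ((B → Fin (k + 1)) × (B → Fin (k + 1))) :=
      fun q => (H (s + 1) q.1.2 q.1.1, (fun v => q.1.1.1 v, fun v => q.1.2.1 v))
    have hF : Function.Injective F := by
      rintro ⟨⟨x, y⟩, hq⟩ ⟨⟨x', y'⟩, hq'⟩ h
      have h1 : H (s + 1) y x = H (s + 1) y' x' := congrArg Prod.fst h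
      have h2 : (fun v : B => x.1 v) = fun v : B => x'.1 v :=
        congrArg (fun p => p.2.1) h
      have h3 : (fun v : B => y.1 v) = fun v : B => y'.1 v :=
        congrArg (fun p => p.2.2) h
      have hx : ∀ v, x.val v = x'.val v ∧ y.val v = y'.val v := by
        intro v
        by_cases hv : v ∈ B
        · have e1 := congrFun h2 ⟨v, hv⟩
          have e2 := congrFun h3 ⟨v, hv⟩
          exact ⟨congrArg Fin.val e1, congrArg Fin.val e2⟩
        · have hv2 : v ∉ nb G (S (s + 1)) k := fun h => hv (Finset.mem_union_right _ h)
          have e1 := hfar x y hq v hv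
          have e2 := hfar x' y' hq' v hv
          have e3 : (H (s + 1) y x).val v = if v ∈ A (s + 1) then x.val v else y.val v :=
            Stage_mk_far _ _ _ y x v hv2
          have e4 : (H (s + 1) y' x').val v = if v ∈ A (s + 1) then x'.val v else y'.val v :=
            Stage_mk_far _ _ _ y' x' v hv2
          rw [h1, e4] at e3
          rw [e1] at e2
          by_cases hA : v ∈ A (s + 1)
          · rw [if_pos hA, if_pos hA] at e2 e3
            exact ⟨e3.symm, e2⟩
          · rw [if_neg hA, if_neg hA] at e2 e3
            exact ⟨e2, e3.symm⟩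
      have ex : x = x' := Stage_ext fun v => (hx v).1
      have ey : y = y' := Stage_ext fun v => (hx v).2
      subst ex
      subst ey
      rfl
    refine (Nat.card_le_card_of_injective F hF).trans ?_
    rw [Nat.card_eq_fintype_card, Fintype.card_prod, Fintype.card_prod, Fintype.card_fun,
      Fintype.card_fin, Fintype.card_coe, ← pow_add]
    apply Nat.mul_le_mul_left
    apply Nat.pow_le_pow_right (Nat.succ_pos k)
    omega

end Pool.Agent.Lib.MP_6886f9_pr
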