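import Pool.Agent.Lib.MP_6886f9_pr.Spec

/-!
MP_6886f9_pr, project KH, module Tor: a path decomposition of the toroidal grid.
-/

set_option autoImplicit false

namespace Pool.Agent.Lib.MP_6886f9_pr

open Finset

private theorem Tor_sub {n : ℕ} (u v : Fin n) (h : (u - v).val = 1) :
    u.val = v.val + 1 ∨ (u.val = 0 ∧ v.val + 1 = n) := by
  have hu := u.isLt
  have hv := v.isLt
  rw [Fin.sub_def] at h
  simp only at h
  by_cases h1 : n - v.val + u.val < n
  · rw [Nat.mod_eq_of_lt h1] at h
    omega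
  · rw [Nat.mod_eq_sub_mod (by omega), Nat.mod_eq_of_lt (by omega)] at h
    omega

private theorem Tor_cyc {n : ℕ} (u v : Fin n) (h : (SimpleGraph.cycleGraph n).Adj u v) :
    (u.val = v.val + 1 ∨ (u.val = 0 ∧ v.val + 1 = n)) ∨
      (v.val = u.val + 1 ∨ (v.val = 0 ∧ u.val + 1 = n)) := by
  rcases SimpleGraph.cycleGraph_adj'.mp h with h | h
  · exact Or.inl (Tor_sub u v h)
  · exact Or.inr (Tor_sub v u h)

private theorem Tor_nbr {n : ℕ} (u : Fin n) :
    ∃ M : Finset (Fin n), (∀ w, (SimpleGraph.cycleGraph n).Adj u w → w ∈ M) ∧ M.card ≤ 2 := by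
  classical
  have h1 : (univ.filter fun w : Fin n =>
      u.val = w.val + 1 ∨ (u.val = 0 ∧ w.val + 1 = n)).card ≤ 1 := by
    rw [Finset.card_le_one]
    intro w hw w' hw'
    rw [Finset.mem_filter] at hw hw'
    apply Fin.ext
    have a := hw.2
    have b := hw'.2
    omega
  have h2 : (univ.filter fun w : Fin n =>
      w.val = u.val + 1 ∨ (w.val = 0 ∧ u.val + 1 = n)).card ≤ 1 := by
    rw [Finset.card_le_one]
    intro w hw w' hw'
    rw [Finset.mem_filter] at hw hw'
    apply Fin.ext
    have a := hw.2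
    have b := hw'.2
    have c := w.isLt
    have d := w'.isLt
    omega
  refine ⟨(univ.filter fun w : Fin n => u.val = w.val + 1 ∨ (u.val = 0 ∧ w.val + 1 = n)) ∪
    (univ.filter fun w : Fin n => w.val = u.val + 1 ∨ (w.val = 0 ∧ u.val + 1 = n)), ?_, ?_⟩
  · intro w hw
    rw [Finset.mem_union, Finset.mem_filter, Finset.mem_filter]
    rcases Tor_cyc u w hw with h | h
    · exact Or.inl ⟨mem_univ _, h⟩
    · exact Or.inr ⟨mem_univ _, h⟩
  · exact (Finset.card_union_le _ _).trans (by omega)

private theorem Tor_deg (a b : ℕ) :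
    DegLE (SimpleGraph.cycleGraph a □ SimpleGraph.cycleGraph b) 4 := by
  classical
  rintro ⟨x, y⟩
  obtain ⟨M, hM, hMc⟩ := Tor_nbr x
  obtain ⟨N, hN, hNc⟩ := Tor_nbr y
  refine ⟨M.image (fun w => (w, y)) ∪ N.image (fun w => (x, w)), ?_, ?_⟩
  · rintro ⟨x', y'⟩ h
    rw [Finset.mem_union, Finset.mem_image, Finset.mem_image]
    rcases SimpleGraph.boxProd_adj.mp h with ⟨h1, h2⟩ | ⟨h1, h2⟩
    · left
      exact ⟨x', hM x' h1, Prod.ext rfl h2⟩
    · right
      exact ⟨y', hN y' h1, Prod.ext h2 rfl⟩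
  · refine (Finset.card_union_le _ _).trans ?_
    have h1 := Finset.card_image_le (s := M) (f := fun w => (w, y))
    have h2 := Finset.card_image_le (s := N) (f := fun w => (x, w))
    omega

open Classical in
private theorem Tor_dec {V : Type} [Fintype V] (G : SimpleGraph V) (b m : ℕ) (hb : 3 ≤ b)
    (c : V → ℕ) (hc : ∀ v, c v < b) (hcol : ∀ y, (univ.filter fun v => c v = y).card ≤ m)
    (hne : ∃ v, c v = 0)
    (hadj : ∀ u v, G.Adj u v → c u = c v ∨ (c u = c v + 1 ∨ (c u = 0 ∧ c v + 1 = b)) ∨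
      (c v = c u + 1 ∨ (c v = 0 ∧ c u + 1 = b))) :
    IsPathDecomp G (fun j : Fin (b - 1) =>
      univ.filter fun v => c v = 0 ∨ c v = j.val ∨ c v = j.val + 1) (3 * m) where
  nonempty i := by
    obtain ⟨v, hv⟩ := hne
    exact ⟨v, Finset.mem_filter.mpr ⟨mem_univ _, Or.inl hv⟩⟩
  card_le i := by
    rw [Finset.filter_or, Finset.filter_or]
    have h1 := Finset.card_union_le (univ.filter fun v => c v = 0)
      ((univ.filter fun v => c v = i.val) ∪ (univ.filter fun v => c v = i.val + 1))
    have h2 := Finset.card_union_le (univ.filter fun v => c v = i.val)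
      (univ.filter fun v => c v = i.val + 1)
    have h3 := hcol 0
    have h4 := hcol i.val
    have h5 := hcol (i.val + 1)
    omega
  cover v := by
    by_cases h : c v = 0
    · exact ⟨⟨0, by omega⟩, Finset.mem_filter.mpr ⟨mem_univ _, Or.inl h⟩⟩
    · have h1 := hc v
      refine ⟨⟨c v - 1, by omega⟩, Finset.mem_filter.mpr ⟨mem_univ _, ?_⟩⟩
      right
      right
      show c v = c v - 1 + 1
      omega
  edge u v h := by
    have h1 := hc u
    have h2 := hc v
    have key : ∃ j : ℕ, j < b - 1 ∧ (c u = 0 ∨ c u = j ∨ c u = j + 1) ∧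
        (c v = 0 ∨ c v = j ∨ c v = j + 1) := by
      rcases hadj u v h with h | (h | h) | (h | h)
      · by_cases h0 : c u = 0
        · exact ⟨0, by omega, by omega, by omega⟩
        · exact ⟨c u - 1, by omega, by omega, by omega⟩
      · exact ⟨c v, by omega, by omega, by omega⟩
      · exact ⟨b - 2, by omega, by omega, by omega⟩
      · exact ⟨c u, by omega, by omega, by omega⟩
      · exact ⟨b - 2, by omega, by omega, by omega⟩
    obtain ⟨j, hj, k1, k2⟩ := key
    exact ⟨⟨j, hj⟩, Finset.mem_filter.mpr ⟨mem_univ _, k1⟩,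
      Finset.mem_filter.mpr ⟨mem_univ _, k2⟩⟩
  interval i j l hij hjl v hi hl := by
    rw [Finset.mem_filter] at hi hl ⊢
    have h1 := hi.2
    have h2 := hl.2
    have h3 : i.val ≤ j.val := hij
    have h4 : j.val ≤ l.val := hjl
    refine ⟨mem_univ _, ?_⟩
    omega

theorem tTor : S_Tor := by
  classical
  intro a b ha hb
  refine ⟨Tor_deg a b, ?_⟩
  rcases le_total a b with hab | hab
  · have hcol : ∀ y, (univ.filter fun v : Fin a × Fin b => v.2.val = y).card ≤ a := by
      intro y
      have h : (univ.filter fun v : Fin a × Fin b => v.2.val = y).card ≤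
          (univ : Finset (Fin a)).card := by
        refine Finset.card_le_card_of_injOn (fun v => v.1) (fun v _ => mem_univ _) ?_
        intro v hv w hw hvw
        have hv' := (Finset.mem_filter.mp (Finset.mem_coe.mp hv)).2
        have hw' := (Finset.mem_filter.mp (Finset.mem_coe.mp hw)).2
        exact Prod.ext hvw (Fin.ext (hv'.trans hw'.symm))
      rw [Finset.card_univ, Fintype.card_fin] at h
      exact h
    have hadj : ∀ u v : Fin a × Fin b,
        (SimpleGraph.cycleGraph a □ SimpleGraph.cycleGraph b).Adj u v →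
        u.2.val = v.2.val ∨ (u.2.val = v.2.val + 1 ∨ (u.2.val = 0 ∧ v.2.val + 1 = b)) ∨
          (v.2.val = u.2.val + 1 ∨ (v.2.val = 0 ∧ u.2.val + 1 = b)) := by
      rintro ⟨x, y⟩ ⟨x', y'⟩ h
      rcases SimpleGraph.boxProd_adj.mp h with ⟨h1, h2⟩ | ⟨h1, h2⟩
      · left
        exact congrArg Fin.val h2
      · right
        exact Tor_cyc y y' h1
    have hd := Tor_dec (SimpleGraph.cycleGraph a □ SimpleGraph.cycleGraph b) b a hb
      (fun v => v.2.val) (fun v => v.2.isLt) hcol
      ⟨(⟨0, by omega⟩, ⟨0, by omega⟩), rfl⟩ hadj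
    have h1 : b - 1 + 1 ≤ max a b := by
      have := le_max_right a b
      omega
    rw [min_eq_left hab]
    exact ⟨b - 1, _, h1, hd⟩
  · have hcol : ∀ y, (univ.filter fun v : Fin a × Fin b => v.1.val = y).card ≤ b := by
      intro y
      have h : (univ.filter fun v : Fin a × Fin b => v.1.val = y).card ≤
          (univ : Finset (Fin b)).card := by
        refine Finset.card_le_card_of_injOn (fun v => v.2) (fun v _ => mem_univ _) ?_
        intro v hv w hw hvw
        have hv' := (Finset.mem_filter.mp (Finset.mem_coe.mp hv)).2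
        have hw' := (Finset.mem_filter.mp (Finset.mem_coe.mp hw)).2
        exact Prod.ext (Fin.ext (hv'.trans hw'.symm)) hvw
      rw [Finset.card_univ, Fintype.card_fin] at h
      exact h
    have hadj : ∀ u v : Fin a × Fin b,
        (SimpleGraph.cycleGraph a □ SimpleGraph.cycleGraph b).Adj u v →
        u.1.val = v.1.val ∨ (u.1.val = v.1.val + 1 ∨ (u.1.val = 0 ∧ v.1.val + 1 = a)) ∨
          (v.1.val = u.1.val + 1 ∨ (v.1.val = 0 ∧ u.1.val + 1 = a)) := by
      rintro ⟨x, y⟩ ⟨x', y'⟩ h
      rcases SimpleGraph.boxProd_adj.mp h with ⟨h1, h2⟩ | ⟨h1, h2⟩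
      · right
        exact Tor_cyc x x' h1
      · left
        exact congrArg Fin.val h2
    have hd := Tor_dec (SimpleGraph.cycleGraph a □ SimpleGraph.cycleGraph b) a b ha
      (fun v => v.1.val) (fun v => v.1.isLt) hcol
      ⟨(⟨0, by omega⟩, ⟨0, by omega⟩), rfl⟩ hadj
    have h1 : a - 1 + 1 ≤ max a b := by
      have := le_max_left a b
      omega
    rw [min_eq_right hab]
    exact ⟨a - 1, _, h1, hd⟩

end Pool.Agent.Lib.MP_6886f9_pr
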