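import Pool.Agent.Lib.MP_6886f9_pr.Spec

/-!
MP_6886f9_pr, project KH2: path decompositions of all (also twisted) toroidal grids.
-/

set_option autoImplicit false

namespace Pool.Agent.Lib.MP_6886f9_pr

open Finset

/-- `G` is a graph on the torus `ℤ² / Λ` whose edges join classes of neighbouring points of the
square grid, i.e. a spanning subgraph of the (possibly twisted) toroidal grid `ℤ² / Λ`. -/
def OnTorus (Λ : AddSubgroup (ℤ × ℤ)) (G : SimpleGraph ((ℤ × ℤ) ⧸ Λ)) : Prop :=
  ∀ u v, G.Adj u v → ∃ p q : ℤ × ℤ, (QuotientAddGroup.mk p : (ℤ × ℤ) ⧸ Λ) = u ∧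
    (QuotientAddGroup.mk q : (ℤ × ℤ) ⧸ Λ) = v ∧ |p.1 - q.1| + |p.2 - q.2| = 1

open Classical in
private theorem Tw_lev {V : Type} [Fintype V] (π : ℤ → ℤ → V) (a b : ℤ) (hb : 0 < b)
    (hper : ∀ x y k : ℤ, π (x + k * a) (y + k * b) = π x y) (i : ℤ) :
    (univ.filter fun v : V => ∃ x y : ℤ, π x y = v ∧ i ≤ b * x - a * y ∧
      b * x - a * y ≤ i + b).card ≤ 2 * b.toNat := by
  have hsub : (univ.filter fun v : V => ∃ x y : ℤ, π x y = v ∧ i ≤ b * x - a * y ∧
      b * x - a * y ≤ i + b) ⊆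
      ((range b.toNat) ×ˢ (range 2)).image
        (fun z : ℕ × ℕ => π ((i + a * (z.1 : ℤ)) / b + (z.2 : ℤ)) (z.1 : ℤ)) := by
    intro v hv
    obtain ⟨x, y, hxy, h1, h2⟩ := (Finset.mem_filter.mp hv).2
    have hy := Int.emod_add_mul_ediv y b
    have hy0 := Int.emod_nonneg y hb.ne'
    have hy1 := Int.emod_lt_of_pos y hb
    set q := y / b with hq
    set y' := y % b with hy'
    have hx' : ∃ x' : ℤ, x' = x - q * a := ⟨_, rfl⟩
    obtain ⟨x', hx'⟩ := hx'
    have e1 : π x' y' = v := by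
      rw [← hxy, ← hper x' y' q]
      have h3 : x' + q * a = x := by rw [hx']; ring
      have h4 : y' + q * b = y := by rw [← hy]; ring
      rw [h3, h4]
    have e2 : b * x' - a * y' = b * x - a * y := by
      rw [hx', ← hy]; ring
    have hs := Int.emod_add_mul_ediv (i + a * y') b
    have hs0 := Int.emod_nonneg (i + a * y') hb.ne'
    have hs1 := Int.emod_lt_of_pos (i + a * y') hb
    set w := (i + a * y') / b with hw
    have g1 : w ≤ x' := by
      by_contra hc
      have h5 : x' + 1 ≤ w := by omega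
      have h6 : b * (x' + 1) ≤ b * w := mul_le_mul_of_nonneg_left h5 hb.le
      nlinarith
    have g2 : x' < w + 2 := by
      by_contra hc
      have h5 : w + 2 ≤ x' := by omega
      have h6 : b * (w + 2) ≤ b * x' := mul_le_mul_of_nonneg_left h5 hb.le
      nlinarith
    refine Finset.mem_image.mpr ⟨(y'.toNat, (x' - w).toNat), ?_, ?_⟩
    · rw [Finset.mem_product, Finset.mem_range, Finset.mem_range]
      constructor
      · show y'.toNat < b.toNat
        omega
      · show (x' - w).toNat < 2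
        omega
    · have c1 : ((y'.toNat : ℕ) : ℤ) = y' := Int.toNat_of_nonneg hy0
      have c2 : (((x' - w).toNat : ℕ) : ℤ) = x' - w := Int.toNat_of_nonneg (by omega)
      show π ((i + a * ((y'.toNat : ℕ) : ℤ)) / b + (((x' - w).toNat : ℕ) : ℤ))
        ((y'.toNat : ℕ) : ℤ) = v
      rw [c1, c2, ← hw]
      have h7 : w + (x' - w) = x' := by ring
      rw [h7]
      exact e1
  refine (Finset.card_le_card hsub).trans (Finset.card_image_le.trans ?_)
  rw [Finset.card_product, Finset.card_range, Finset.card_range]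
  omega

private theorem Tw_per (Λ : AddSubgroup (ℤ × ℤ)) (a b : ℤ) (hab : (a, b) ∈ Λ) (x y k : ℤ) :
    (QuotientAddGroup.mk (x + k * a, y + k * b) : (ℤ × ℤ) ⧸ Λ) = QuotientAddGroup.mk (x, y) := by
  rw [QuotientAddGroup.eq]
  have h : -(x + k * a, y + k * b) + (x, y) = (-k) • (a, b) := by
    ext
    · simp
    · simp
  rw [h]
  exact Λ.zsmul_mem hab _

open Classical in
private theorem Tw_card (Λ : AddSubgroup (ℤ × ℤ)) [Fintype ((ℤ × ℤ) ⧸ Λ)] (a b : ℤ)
    (hab : (a, b) ∈ Λ) (h0 : (a, b) ≠ 0) (i : ℤ) :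
    (univ.filter fun v : (ℤ × ℤ) ⧸ Λ => ∃ p : ℤ × ℤ, (QuotientAddGroup.mk p : (ℤ × ℤ) ⧸ Λ) = v ∧
      i ≤ b * p.1 - a * p.2 ∧ b * p.1 - a * p.2 ≤ i + (max a.natAbs b.natAbs : ℕ)).card ≤
      2 * max a.natAbs b.natAbs := by
  have hne : a ≠ 0 ∨ b ≠ 0 := by
    by_contra hc
    rw [not_or, not_not, not_not] at hc
    apply h0
    rw [hc.1, hc.2]
    rfl
  rcases le_total a.natAbs b.natAbs with hle | hle
  · rw [max_eq_right hle]
    have hb : b ≠ 0 := by
      rcases hne with h | h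
      · intro hb
        rw [hb] at hle
        simp at hle
        exact h hle
      · exact h
    rcases lt_or_gt_of_ne hb with hb | hb
    · have h := Tw_lev (fun x y => (QuotientAddGroup.mk (x, y) : (ℤ × ℤ) ⧸ Λ)) (-a) (-b)
        (by omega) (fun x y k => by
          have := Tw_per Λ a b hab x y (-k)
          have e1 : x + -k * a = x + k * -a := by ring
          have e2 : y + -k * b = y + k * -b := by ring
          rw [e1, e2] at this
          exact this) (-i - (b.natAbs : ℕ))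
      have hbn : (-b).toNat = b.natAbs := by omega
      rw [hbn] at h
      refine le_trans (Finset.card_le_card ?_) h
      intro v hv
      obtain ⟨p, hp, h1, h2⟩ := (Finset.mem_filter.mp hv).2
      refine Finset.mem_filter.mpr ⟨mem_univ _, p.1, p.2, hp, ?_, ?_⟩
      · have : -b * p.1 - -a * p.2 = -(b * p.1 - a * p.2) := by ring
        rw [this]
        omega
      · have : -b * p.1 - -a * p.2 = -(b * p.1 - a * p.2) := by ring
        rw [this]
        omega
    · have h := Tw_lev (fun x y => (QuotientAddGroup.mk (x, y) : (ℤ × ℤ) ⧸ Λ)) a b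
        hb (fun x y k => Tw_per Λ a b hab x y k) i
      have hbn : b.toNat = b.natAbs := by omega
      rw [hbn] at h
      refine le_trans (Finset.card_le_card ?_) h
      intro v hv
      obtain ⟨p, hp, h1, h2⟩ := (Finset.mem_filter.mp hv).2
      exact Finset.mem_filter.mpr ⟨mem_univ _, p.1, p.2, hp, h1, by omega⟩
  · rw [max_eq_left hle]
    have ha : a ≠ 0 := by
      rcases hne with h | h
      · exact h
      · intro ha
        rw [ha] at hle
        simp at hle
        exact h hle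
    rcases lt_or_gt_of_ne ha with ha | ha
    · have h := Tw_lev (fun x y => (QuotientAddGroup.mk (y, x) : (ℤ × ℤ) ⧸ Λ)) (-b) (-a)
        (by omega) (fun x y k => by
          have := Tw_per Λ a b hab y x (-k)
          have e1 : y + -k * a = y + k * -a := by ring
          have e2 : x + -k * b = x + k * -b := by ring
          rw [e1, e2] at this
          exact this) i
      have hbn : (-a).toNat = a.natAbs := by omega
      rw [hbn] at h
      refine le_trans (Finset.card_le_card ?_) h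
      intro v hv
      obtain ⟨p, hp, h1, h2⟩ := (Finset.mem_filter.mp hv).2
      refine Finset.mem_filter.mpr ⟨mem_univ _, p.2, p.1, hp, ?_, ?_⟩
      · have : -a * p.2 - -b * p.1 = b * p.1 - a * p.2 := by ring
        rw [this]
        omega
      · have : -a * p.2 - -b * p.1 = b * p.1 - a * p.2 := by ring
        rw [this]
        omega
    · have h := Tw_lev (fun x y => (QuotientAddGroup.mk (y, x) : (ℤ × ℤ) ⧸ Λ)) b a
        ha (fun x y k => Tw_per Λ a b hab y x k) (-i - (a.natAbs : ℕ))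
      have hbn : a.toNat = a.natAbs := by omega
      rw [hbn] at h
      refine le_trans (Finset.card_le_card ?_) h
      intro v hv
      obtain ⟨p, hp, h1, h2⟩ := (Finset.mem_filter.mp hv).2
      refine Finset.mem_filter.mpr ⟨mem_univ _, p.2, p.1, hp, ?_, ?_⟩
      · have : a * p.2 - b * p.1 = -(b * p.1 - a * p.2) := by ring
        rw [this]
        omega
      · have : a * p.2 - b * p.1 = -(b * p.1 - a * p.2) := by ring
        rw [this]
        omega

/-- Every vertex of a spanning subgraph of a toroidal grid has at most four neighbours. -/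
theorem tw_deg (Λ : AddSubgroup (ℤ × ℤ)) (G : SimpleGraph ((ℤ × ℤ) ⧸ Λ)) (hG : OnTorus Λ G) :
    DegLE G 4 := by
  classical
  intro u
  refine ⟨({((1 : ℤ), (0 : ℤ)), (-1, 0), (0, 1), (0, -1)} : Finset (ℤ × ℤ)).image
    (fun d => u + QuotientAddGroup.mk d), ?_, ?_⟩
  · intro v huv
    obtain ⟨p, q, hp, hq, hpq⟩ := hG u v huv
    refine Finset.mem_image.mpr ⟨q - p, ?_, ?_⟩
    · have h : (q - p = (1, 0)) ∨ (q - p = (-1, 0)) ∨ (q - p = (0, 1)) ∨ (q - p = (0, -1)) := by
        have h1 : (q - p).1 = q.1 - p.1 := rfl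
        have h2 : (q - p).2 = q.2 - p.2 := rfl
        rcases abs_cases (p.1 - q.1) with ⟨e1, e2⟩ | ⟨e1, e2⟩ <;>
          rcases abs_cases (p.2 - q.2) with ⟨e3, e4⟩ | ⟨e3, e4⟩ <;>
          rw [e1, e3] at hpq <;>
          simp only [Prod.ext_iff, h1, h2] <;> omega
      simpa using h
    · rw [← hp, ← hq, ← QuotientAddGroup.mk_add]
      congr 1
      abel
  · exact Finset.card_image_le.trans (by decide)

/-- Every spanning subgraph of a toroidal grid `ℤ² / Λ` has a path decomposition into bags of at most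
`4 m` vertices, `m` the maximum norm of any nonzero element of `Λ`. -/
theorem tw_dec (Λ : AddSubgroup (ℤ × ℤ)) [Fintype ((ℤ × ℤ) ⧸ Λ)] (a b : ℤ)
    (hab : (a, b) ∈ Λ) (h0 : (a, b) ≠ 0) (G : SimpleGraph ((ℤ × ℤ) ⧸ Λ)) (hG : OnTorus Λ G) :
    ∃ (r : ℕ) (X : Fin r → Finset ((ℤ × ℤ) ⧸ Λ)),
      r ≤ Fintype.card ((ℤ × ℤ) ⧸ Λ) * max a.natAbs b.natAbs ∧
      IsPathDecomp G X (4 * max a.natAbs b.natAbs) := by
  classical
  set n := Fintype.card ((ℤ × ℤ) ⧸ Λ) with hn
  set m := max a.natAbs b.natAbs with hm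
  have hnpos : 0 < n := Fintype.card_pos
  -- multiples of n lie in Λ
  have hmul : ∀ p : ℤ × ℤ, n • p ∈ Λ := by
    intro p
    rw [← QuotientAddGroup.eq_zero_iff, QuotientAddGroup.mk_nsmul]
    exact card_nsmul_eq_zero
  let g : ℤ × ℤ → ℤ := fun p => b * p.1 - a * p.2
  have gsub : ∀ p q, g (p - q) = g p - g q := by
    intro p q
    show b * (p.1 - q.1) - a * (p.2 - q.2) = (b * p.1 - a * p.2) - (b * q.1 - a * q.2)
    ring
  have gsmul : ∀ (k : ℤ) p, g (k • p) = k * g p := by
    intro k p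
    show b * (k • p.1) - a * (k • p.2) = k * (b * p.1 - a * p.2)
    rw [smul_eq_mul, smul_eq_mul]
    ring
  have hne : a ≠ 0 ∨ b ≠ 0 := by
    by_contra hc
    rw [not_or, not_not, not_not] at hc
    apply h0
    rw [hc.1, hc.2]
    rfl
  have hgx : ∃ p ∈ Λ, 0 < g p ∧ g p ≤ (n : ℤ) * m := by
    have key : ∀ (p : ℤ × ℤ) (z : ℤ), g p = z → z ≠ 0 → z.natAbs ≤ m →
        ∃ p ∈ Λ, 0 < g p ∧ g p ≤ (n : ℤ) * m := by
      intro p z hz hz0 hzm
      have hnz : (0 : ℤ) < n := by exact_mod_cast hnpos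
      rcases lt_or_gt_of_ne hz0 with h | h
      · refine ⟨(-(n : ℤ)) • p, ?_, ?_, ?_⟩
        · rw [neg_smul, natCast_zsmul]
          exact Λ.neg_mem (hmul p)
        · rw [gsmul, hz]
          nlinarith
        · rw [gsmul, hz]
          have : -z ≤ (m : ℤ) := by omega
          nlinarith
      · refine ⟨((n : ℤ)) • p, ?_, ?_, ?_⟩
        · rw [natCast_zsmul]
          exact hmul p
        · rw [gsmul, hz]
          positivity
        · rw [gsmul, hz]
          have : z ≤ (m : ℤ) := by omega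
          nlinarith
    rcases hne with h | h
    · exact key (0, -1) a (by show b * 0 - a * (-1) = a; ring) h (le_max_left _ _)
    · exact key (1, 0) b (by show b * 1 - a * 0 = b; ring) h (le_max_right _ _)
  have hex : ∃ N : ℕ, 0 < N ∧ ∃ p ∈ Λ, g p = N := by
    obtain ⟨p, hp, h1, h2⟩ := hgx
    exact ⟨(g p).toNat, by omega, p, hp, by omega⟩
  obtain ⟨hN0, p1, hp1, hgp1⟩ := Nat.find_spec hex
  have hNmin : ∀ k : ℕ, 0 < k → (∃ p ∈ Λ, g p = k) → Nat.find hex ≤ k :=
    fun k hk h => Nat.find_min' hex ⟨hk, h⟩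
  set N := Nat.find hex with hN
  have hNle : N ≤ n * m := by
    obtain ⟨p, hp, h1, h2⟩ := hgx
    have h3 := hNmin (g p).toNat (by omega) ⟨p, hp, by omega⟩
    have h4 : ((g p).toNat : ℤ) ≤ ((n * m : ℕ) : ℤ) := by
      rw [Int.toNat_of_nonneg h1.le]
      push_cast
      exact h2
    exact h3.trans (by exact_mod_cast h4)
  have hNZ : (0 : ℤ) < (N : ℤ) := by exact_mod_cast hN0
  have hdvd : ∀ p ∈ Λ, ∃ k : ℤ, g p = N * k := by
    intro p hp
    refine ⟨g p / N, ?_⟩
    have h1 := Int.emod_add_mul_ediv (g p) N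
    have h2 := Int.emod_nonneg (g p) hNZ.ne'
    have h3 := Int.emod_lt_of_pos (g p) hNZ
    by_contra hc
    have h4 : 0 < g p % N := by
      rcases h2.lt_or_eq with h | h
      · exact h
      · exfalso
        apply hc
        rw [← h] at h1
        omega
    have h5 : g (p - (g p / N) • p1) = g p % N := by
      rw [gsub, gsmul, hgp1]
      have : g p / ↑N * ↑N = ↑N * (g p / ↑N) := by ring
      rw [this]
      omega
    have h6 := hNmin (g p % N).toNat (by omega)
      ⟨p - (g p / N) • p1, Λ.sub_mem hp (Λ.zsmul_mem hp1 _), by rw [h5]; omega⟩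
    omega
  have hrep : ∀ v : (ℤ × ℤ) ⧸ Λ, ∃ j : ℕ, j < N ∧ ∃ p : ℤ × ℤ,
      (QuotientAddGroup.mk p : (ℤ × ℤ) ⧸ Λ) = v ∧ g p = j := by
    intro v
    obtain ⟨p, hp⟩ := QuotientAddGroup.mk_surjective v
    have h1 := Int.emod_add_mul_ediv (g p) N
    have h2 := Int.emod_nonneg (g p) hNZ.ne'
    have h3 := Int.emod_lt_of_pos (g p) hNZ
    refine ⟨(g p % N).toNat, by omega, p - (g p / N) • p1, ?_, ?_⟩
    · rw [← hp, QuotientAddGroup.eq]
      have : -(p - (g p / ↑N) • p1) + p = (g p / ↑N) • p1 := by abel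
      rw [this]
      exact Λ.zsmul_mem hp1 _
    · rw [gsub, gsmul, hgp1]
      have : g p / ↑N * ↑N = ↑N * (g p / ↑N) := by ring
      rw [this]
      omega
  choose c hcN pr hpr hgpr using hrep
  have hmod : ∀ (p : ℤ × ℤ) (v : (ℤ × ℤ) ⧸ Λ), (QuotientAddGroup.mk p : (ℤ × ℤ) ⧸ Λ) = v →
      ∃ k : ℤ, g p = c v + N * k := by
    intro p v hpv
    have h1 : p - pr v ∈ Λ := by
      have h2 : (QuotientAddGroup.mk (pr v) : (ℤ × ℤ) ⧸ Λ) = QuotientAddGroup.mk p := by
        rw [hpr v, hpv]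
      rw [QuotientAddGroup.eq] at h2
      have h3 : p - pr v = -(pr v) + p := by abel
      rw [h3]
      exact h2
    obtain ⟨k, hk⟩ := hdvd _ h1
    rw [gsub, hgpr v] at hk
    exact ⟨k, by omega⟩
  have hlev : ∀ i : ℕ, (univ.filter fun v : (ℤ × ℤ) ⧸ Λ => i ≤ c v ∧ c v ≤ i + m).card ≤
      2 * m := by
    intro i
    refine le_trans (Finset.card_le_card ?_) (Tw_card Λ a b hab h0 i)
    intro v hv
    obtain ⟨h1, h2⟩ := (Finset.mem_filter.mp hv).2
    refine Finset.mem_filter.mpr ⟨mem_univ _, pr v, hpr v, ?_, ?_⟩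
    · have := hgpr v
      change b * (pr v).1 - a * (pr v).2 = _ at this
      rw [this]
      exact_mod_cast h1
    · have := hgpr v
      change b * (pr v).1 - a * (pr v).2 = _ at this
      rw [this]
      exact_mod_cast h2
  -- neighbours
  have hstep : ∀ u v : (ℤ × ℤ) ⧸ Λ, ∀ p q : ℤ × ℤ, (QuotientAddGroup.mk p : (ℤ × ℤ) ⧸ Λ) = u →
      (QuotientAddGroup.mk q : (ℤ × ℤ) ⧸ Λ) = v → g p ≤ g q → g q ≤ g p + m →
      (c u ≤ c v ∧ c v ≤ c u + m) ∨ c v ≤ m := by
    intro u v p q hp hq h1 h2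
    obtain ⟨k, hk⟩ := hmod p u hp
    obtain ⟨l, hl⟩ := hmod q v hq
    have hu := hcN u
    have hv := hcN v
    have hlk : k ≤ l := by
      by_contra hc
      have h3 : l + 1 ≤ k := by omega
      have h4 : (N : ℤ) * (l + 1) ≤ N * k := mul_le_mul_of_nonneg_left h3 hNZ.le
      rw [mul_add, mul_one] at h4
      omega
    rcases hlk.lt_or_eq with h3 | h3
    · right
      have h4 : (N : ℤ) * (k + 1) ≤ N * l := mul_le_mul_of_nonneg_left (by omega) hNZ.le
      rw [mul_add, mul_one] at h4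
      omega
    · left
      rw [← h3] at hl
      omega
  have hdiff : ∀ p q : ℤ × ℤ, |p.1 - q.1| + |p.2 - q.2| = 1 → |g q - g p| ≤ m := by
    intro p q hpq
    have h3 : g q - g p = b * (q.1 - p.1) - a * (q.2 - p.2) := by
      show (b * q.1 - a * q.2) - (b * p.1 - a * p.2) = b * (q.1 - p.1) - a * (q.2 - p.2)
      ring
    have ham : |a| ≤ (m : ℤ) := by
      have h4 : a.natAbs ≤ m := le_max_left _ _
      rw [Int.abs_eq_natAbs]
      exact_mod_cast h4
    have hbm : |b| ≤ (m : ℤ) := by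
      have h4 : b.natAbs ≤ m := le_max_right _ _
      rw [Int.abs_eq_natAbs]
      exact_mod_cast h4
    rw [h3]
    have hx : |q.1 - p.1| = |p.1 - q.1| := abs_sub_comm _ _
    have hy : |q.2 - p.2| = |p.2 - q.2| := abs_sub_comm _ _
    calc |b * (q.1 - p.1) - a * (q.2 - p.2)|
        ≤ |b * (q.1 - p.1)| + |a * (q.2 - p.2)| := abs_sub _ _
      _ = |b| * |p.1 - q.1| + |a| * |p.2 - q.2| := by rw [abs_mul, abs_mul, hx, hy]
      _ ≤ m * |p.1 - q.1| + m * |p.2 - q.2| :=
        add_le_add (mul_le_mul_of_nonneg_right hbm (abs_nonneg _))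
          (mul_le_mul_of_nonneg_right ham (abs_nonneg _))
      _ = m * (|p.1 - q.1| + |p.2 - q.2|) := by ring
      _ = m := by rw [hpq, mul_one]
  refine ⟨N, fun i => univ.filter fun v => ((i : ℕ) ≤ c v ∧ c v ≤ i + m) ∨ c v ≤ m, hNle, ?_⟩
  exact {
    nonempty := by
      intro i
      have h1 : c (QuotientAddGroup.mk 0) = 0 := by
        obtain ⟨k, hk⟩ := hmod 0 (QuotientAddGroup.mk 0) rfl
        have h2 : g 0 = 0 := by
          show b * 0 - a * 0 = 0
          ring
        have h3 := hcN (QuotientAddGroup.mk 0)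
        rw [h2] at hk
        by_contra hc
        have h4 : k < 0 := by
          by_contra h5
          have : (N : ℤ) * 0 ≤ N * k := mul_le_mul_of_nonneg_left (by omega) hNZ.le
          omega
        have h6 : (N : ℤ) * k ≤ N * (-1) := mul_le_mul_of_nonneg_left (by omega) hNZ.le
        omega
      exact ⟨QuotientAddGroup.mk 0, Finset.mem_filter.mpr ⟨mem_univ _, Or.inr (by omega)⟩⟩
    card_le := by
      intro i
      rw [Finset.filter_or]
      have h1 := Finset.card_union_le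
        (univ.filter fun v : (ℤ × ℤ) ⧸ Λ => (i : ℕ) ≤ c v ∧ c v ≤ i + m)
        (univ.filter fun v : (ℤ × ℤ) ⧸ Λ => c v ≤ m)
      have h2 := hlev i
      have h3 := hlev 0
      have h4 : (univ.filter fun v : (ℤ × ℤ) ⧸ Λ => c v ≤ m).card ≤
          (univ.filter fun v : (ℤ × ℤ) ⧸ Λ => 0 ≤ c v ∧ c v ≤ 0 + m).card := by
        apply Finset.card_le_card
        intro v hv
        have := (Finset.mem_filter.mp hv).2
        exact Finset.mem_filter.mpr ⟨mem_univ _, by omega, by omega⟩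
      omega
    cover := by
      intro v
      exact ⟨⟨c v, hcN v⟩, Finset.mem_filter.mpr ⟨mem_univ _, Or.inl ⟨le_refl _, by
        show c v ≤ c v + m
        omega⟩⟩⟩
    edge := by
      intro u v huv
      obtain ⟨p, q, hp, hq, hpq⟩ := hG u v huv
      have hd := abs_le.mp (hdiff p q hpq)
      rcases le_total (g p) (g q) with h | h
      · have h1 := hstep u v p q hp hq h (by omega)
        refine ⟨⟨c u, hcN u⟩, Finset.mem_filter.mpr ⟨mem_univ _, Or.inl ⟨le_refl _, ?_⟩⟩,
          Finset.mem_filter.mpr ⟨mem_univ _, h1⟩⟩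
        show c u ≤ c u + m
        omega
      · have h1 := hstep v u q p hq hp h (by omega)
        refine ⟨⟨c v, hcN v⟩, Finset.mem_filter.mpr ⟨mem_univ _, h1⟩,
          Finset.mem_filter.mpr ⟨mem_univ _, Or.inl ⟨le_refl _, ?_⟩⟩⟩
        show c v ≤ c v + m
        omega
    interval := by
      intro i j l hij hjl v hi hl
      have h1 := (Finset.mem_filter.mp hi).2
      have h2 := (Finset.mem_filter.mp hl).2
      have h3 : (i : ℕ) ≤ j := hij
      have h4 : (j : ℕ) ≤ l := hjl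
      refine Finset.mem_filter.mpr ⟨mem_univ _, ?_⟩
      omega }

/-- A subgroup of index `n` contains a nonzero element of maximum norm at most `√n`. -/
theorem tw_min (Λ : AddSubgroup (ℤ × ℤ)) [Fintype ((ℤ × ℤ) ⧸ Λ)] :
    ∃ a b : ℤ, (a, b) ∈ Λ ∧ (a, b) ≠ 0 ∧
      (max a.natAbs b.natAbs) ^ 2 ≤ Fintype.card ((ℤ × ℤ) ⧸ Λ) := by
  classical
  set n := Fintype.card ((ℤ × ℤ) ⧸ Λ) with hn
  set k := Nat.sqrt n with hk
  have hcard : (univ : Finset ((ℤ × ℤ) ⧸ Λ)).card < ((range (k + 1)) ×ˢ (range (k + 1))).card := by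
    rw [Finset.card_product, Finset.card_range, Finset.card_univ, ← hn]
    exact Nat.lt_succ_sqrt n
  obtain ⟨z, hz, w, hw, hzw, hf⟩ := Finset.exists_ne_map_eq_of_card_lt_of_maps_to hcard
    (f := fun z : ℕ × ℕ => (QuotientAddGroup.mk ((z.1 : ℤ), (z.2 : ℤ)) : (ℤ × ℤ) ⧸ Λ))
    (fun _ _ => Finset.mem_coe.mpr (mem_univ _))
  rw [Finset.mem_product, Finset.mem_range, Finset.mem_range] at hz hw
  rw [QuotientAddGroup.eq] at hf
  have h1 : -((z.1 : ℤ), (z.2 : ℤ)) + ((w.1 : ℤ), (w.2 : ℤ)) =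
      ((w.1 : ℤ) - z.1, (w.2 : ℤ) - z.2) := by
    ext
    · show -(z.1 : ℤ) + w.1 = w.1 - z.1
      ring
    · show -(z.2 : ℤ) + w.2 = w.2 - z.2
      ring
  rw [h1] at hf
  refine ⟨_, _, hf, ?_, ?_⟩
  · intro h
    apply hzw
    have h2 : (w.1 : ℤ) - z.1 = 0 := congrArg Prod.fst h
    have h3 : (w.2 : ℤ) - z.2 = 0 := congrArg Prod.snd h
    ext <;> omega
  · have h4 : max ((w.1 : ℤ) - z.1).natAbs ((w.2 : ℤ) - z.2).natAbs ≤ k := by
      rw [max_le_iff]
      omega
    calc _ ≤ k ^ 2 := Nat.pow_le_pow_left h4 2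
      _ ≤ n := Nat.sqrt_le' n

end Pool.Agent.Lib.MP_6886f9_pr
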